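import Pool.Agent.N422.WS.Stm

/-! Project WS (helper422), part GEN (helper704, after helper499): the general inequality for real functions from the
inequality of Jensen. -/

set_option autoImplicit false

open Finset

namespace Pool.Agent.N422.WS

open Pool.Agent.N422.NW Pool.Agent.N422.SL

lemma GEN_psi_inj {s : ℝ} (h0 : 0 < s) (h1 : s < 1) {w w' : ℂ} (hw : ‖w‖ = 1) (hw' : ‖w'‖ = 1)
    (h : psi s w = psi s w') : w = w' := by
  have hne : ∀ v : ℂ, ‖v‖ = 1 → (1 + s * v : ℂ) ≠ 0 := by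
    intro v hv h2
    have h3 : (s * v : ℂ) = -1 := by linear_combination h2
    have h4 : ‖(s * v : ℂ)‖ = 1 := by rw [h3, norm_neg, norm_one]
    rw [norm_mul, Complex.norm_real, Real.norm_eq_abs, abs_of_pos h0, hv, mul_one] at h4
    linarith
  unfold psi at h
  rw [div_eq_div_iff (hne w hw) (hne w' hw')] at h
  have h5 : (w - w') * (1 - (s : ℂ) ^ 2) = 0 := by linear_combination h
  rcases mul_eq_zero.1 h5 with h6 | h6
  · exact sub_eq_zero.1 h6
  · exfalso
    have h7 : (s : ℂ) ^ 2 = 1 := by linear_combination -h6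
    have h8 : s ^ 2 = 1 := by exact_mod_cast h7
    nlinarith

lemma GEN_point (x y z : ℝ) (hx : 0 < x) (hy : 0 < y) (hz : 0 < z) :
    x * Real.log y + x * Real.log z ≤ x * Real.log x - x + y * z := by
  have h1 := Real.log_le_sub_one_of_pos (show 0 < y * z / x by positivity)
  rw [Real.log_div (by positivity) hx.ne', Real.log_mul hy.ne' hz.ne'] at h1
  have h2 := mul_le_mul_of_nonneg_left h1 hx.le
  have h3 : x * (y * z / x - 1) = y * z - x := by
    field_simp
  rw [h3] at h2
  linarith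

theorem t_GEN2 (hJ : S_JEN) (hA : S_AV) : S_GEN2 := by
  classical
  intro ι _ _ n μ f t K φ LB hμ ht hKs hPol hKb hLB hm
  set s : ℝ := Real.exp (-t) with hs
  have hs0 : 0 < s := Real.exp_pos _
  have hs1 : s < 1 := by
    have h0 := Real.exp_lt_exp.mpr (show -t < 0 by linarith)
    rwa [Real.exp_zero] at h0
  have hpsi : ∀ w : ℂ, ‖w‖ = 1 → ‖psi s w‖ = 1 := (hA 0 t ht).1
  set p : ι → ℝ := fun x => max (f x) 0 with hp
  have hp0 : ∀ x, 0 ≤ p x := fun x => le_max_right _ _
  have hpf : ∀ x, 0 < f x → p x = f x := fun x h => max_eq_left h.le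
  have hpn : ∀ x, ¬ 0 < f x → p x = 0 := fun x h => max_eq_right (not_lt.1 h)
  set m : ℝ := ∑ x, μ x * max (f x) 0 with hmdef
  have hmp : m = ∑ x, μ x * p x := rfl
  set S : ℝ := ∑ x, μ x * |f x| with hSdef
  have hmS : m ≤ S := by
    refine Finset.sum_le_sum fun x _ => mul_le_mul_of_nonneg_left ?_ (hμ x)
    exact max_le (le_abs_self _) (abs_nonneg _)
  have hS0 : 0 < S := hm.trans_le hmS
  set A : ℝ := S / m with hAdef
  have hA0 : 0 < A := div_pos hS0 hm
  choose P hPe using hPol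
  have hPs : ∀ γ, (P γ).eval (s : ℂ) = (s : ℂ) ^ n * (f γ : ℂ) := by
    intro γ
    rw [hPe γ s (by exact_mod_cast hs0.ne')]
    congr 1
    rw [Finset.sum_eq_single γ]
    · rw [hKs, if_pos rfl, one_mul]
    · intro γ' _ h
      rw [hKs, if_neg h, zero_mul]
    · intro h
      exact absurd (Finset.mem_univ _) h
  have hPn : ∀ γ w, ‖w‖ = 1 → ‖(P γ).eval (psi s w)‖ =
      ‖∑ γ', K (psi s w) γ γ' * (f γ' : ℂ)‖ := by
    intro γ w hw
    have hz := hpsi w hw
    have hz0 : psi s w ≠ 0 := by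
      intro h0; rw [h0, norm_zero] at hz; exact zero_ne_one hz
    rw [hPe γ _ hz0, norm_mul, norm_pow, hz, one_pow, one_mul]
  have hne : ∀ γ, 0 < f γ → (P γ).eval (s : ℂ) ≠ 0 := by
    intro γ hγ
    rw [hPs γ]
    exact mul_ne_zero (pow_ne_zero _ (by exact_mod_cast hs0.ne')) (by exact_mod_cast hγ.ne')
  -- Jensen
  have hJen : ∀ γ, 0 < f γ →
      CircleIntegrable (fun w => Real.log ‖(P γ).eval (psi s w)‖) 0 1 ∧
      Real.log (f γ) - n * t ≤
        Real.circleAverage (fun w => Real.log ‖(P γ).eval (psi s w)‖) 0 1 := by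
    intro γ hγ
    obtain ⟨h1, h2⟩ := hJ (P γ) s hs0 hs1 (hne γ hγ)
    refine ⟨h1, le_trans (le_of_eq ?_) h2⟩
    rw [hPs γ, norm_mul, norm_pow, Complex.norm_real, Complex.norm_real,
      Real.norm_of_nonneg hs0.le, Real.norm_of_nonneg hγ.le,
      Real.log_mul (by positivity) hγ.ne', Real.log_pow, hs, Real.log_exp]
    ring
  -- the exceptional set
  have hfin : ∀ γ, 0 < f γ → {w : ℂ | ‖w‖ = 1 ∧ (P γ).eval (psi s w) = 0}.Countable := by
    intro γ hγ
    have hP0 : P γ ≠ 0 := by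
      intro h
      apply hne γ hγ
      rw [h, Polynomial.eval_zero]
    have h1 : {z : ℂ | (P γ).eval z = 0}.Finite := by
      refine ((P γ).roots.toFinset.finite_toSet).subset ?_
      intro z hz
      simp only [Finset.mem_coe, Multiset.mem_toFinset, Polynomial.mem_roots hP0]
      exact hz
    refine Set.Finite.countable (Set.Finite.of_finite_image (f := psi s)
      (h1.subset ?_) ?_)
    · rintro _ ⟨w, hw, rfl⟩
      exact hw.2
    · intro w hw w' hw' h
      exact GEN_psi_inj hs0 hs1 hw.1 hw'.1 h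
  have hfinZ : {w : ℂ | ∃ γ, 0 < f γ ∧ ‖w‖ = 1 ∧ (P γ).eval (psi s w) = 0}.Countable := by
    have h1 : {w : ℂ | ∃ γ, 0 < f γ ∧ ‖w‖ = 1 ∧ (P γ).eval (psi s w) = 0} =
        ⋃ γ ∈ {γ : ι | 0 < f γ}, {w : ℂ | ‖w‖ = 1 ∧ (P γ).eval (psi s w) = 0} := by
      ext w
      simp only [Set.mem_ofPred_eq, Set.mem_iUnion, exists_prop]
    rw [h1]
    exact Set.Countable.biUnion (Set.to_countable _) fun γ hγ => hfin γ hγ
  -- the pointwise inequality
  have hpt : ∀ w : ℂ, ‖w‖ = 1 → (∀ γ, 0 < f γ → (P γ).eval (psi s w) ≠ 0) →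
      ∑ γ, μ γ * (p γ * Real.log ‖(P γ).eval (psi s w)‖) +
        ∑ γ, μ γ * (p γ * Real.log (φ (psi s w) γ)) ≤
      ∑ γ, μ γ * (p γ * Real.log (p γ)) + Real.log A * m := by
    intro w hw hgood
    obtain ⟨hφ, hK⟩ := hKb (psi s w) (hpsi w hw)
    have h1 : ∑ γ, (μ γ * (p γ * Real.log ‖(P γ).eval (psi s w)‖) +
        μ γ * (p γ * Real.log (φ (psi s w) γ))) ≤
        ∑ γ, (μ γ * (p γ * Real.log (p γ)) + Real.log A * (μ γ * p γ) - μ γ * p γ +
          1 / A * (μ γ * φ (psi s w) γ * ‖(P γ).eval (psi s w)‖)) := by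
      apply Finset.sum_le_sum
      intro γ _
      by_cases h : 0 < f γ
      · have h2 := GEN_point (f γ) ‖(P γ).eval (psi s w)‖ (φ (psi s w) γ / A) h
          (norm_pos_iff.2 (hgood γ h)) (div_pos (hφ γ) hA0)
        rw [Real.log_div (hφ γ).ne' hA0.ne'] at h2
        have h3 := mul_le_mul_of_nonneg_left h2 (hμ γ)
        rw [hpf γ h]
        have h4 : 1 / A * (μ γ * φ (psi s w) γ * ‖(P γ).eval (psi s w)‖) =
            μ γ * (‖(P γ).eval (psi s w)‖ * (φ (psi s w) γ / A)) := by
          field_simp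
        rw [h4]
        linarith
      · rw [hpn γ h]
        simp only [zero_mul, mul_zero, add_zero, sub_zero, zero_add]
        exact mul_nonneg (by positivity) (mul_nonneg (mul_nonneg (hμ γ) (hφ γ).le) (norm_nonneg _))
    have h4 : ∑ γ, μ γ * φ (psi s w) γ * ‖(P γ).eval (psi s w)‖ ≤ S := by
      calc ∑ γ, μ γ * φ (psi s w) γ * ‖(P γ).eval (psi s w)‖
          ≤ ∑ γ, μ γ * φ (psi s w) γ * ∑ γ', ‖K (psi s w) γ γ'‖ * |f γ'| := by
            apply Finset.sum_le_sum
            intro γ _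
            apply mul_le_mul_of_nonneg_left _ (mul_nonneg (hμ γ) (hφ γ).le)
            rw [hPn γ w hw]
            refine (norm_sum_le _ _).trans (Finset.sum_le_sum fun γ' _ => ?_)
            rw [norm_mul, Complex.norm_real, Real.norm_eq_abs]
        _ = ∑ γ', |f γ'| * ∑ γ, μ γ * φ (psi s w) γ * ‖K (psi s w) γ γ'‖ := by
            simp only [Finset.mul_sum]
            rw [Finset.sum_comm]
            refine Finset.sum_congr rfl fun γ' _ => Finset.sum_congr rfl fun γ _ => ?_
            ring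
        _ ≤ ∑ γ', |f γ'| * μ γ' :=
            Finset.sum_le_sum fun γ' _ => mul_le_mul_of_nonneg_left (hK γ') (abs_nonneg _)
        _ = _ := Finset.sum_congr rfl fun γ' _ => by ring
    have h5 : 1 / A * ∑ γ, μ γ * φ (psi s w) γ * ‖(P γ).eval (psi s w)‖ ≤ m := by
      have h6 := mul_le_mul_of_nonneg_left h4 (show 0 ≤ 1 / A by positivity)
      have h7 : 1 / A * S = m := by
        rw [hAdef]; field_simp
      linarith
    rw [Finset.sum_add_distrib, Finset.sum_add_distrib, Finset.sum_sub_distrib,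
      Finset.sum_add_distrib, ← Finset.mul_sum, ← Finset.mul_sum] at h1
    rw [hmp] at h5 ⊢
    linarith
  -- integrability
  have hU : ∀ γ, CircleIntegrable
      (fun w => μ γ * (p γ * Real.log ‖(P γ).eval (psi s w)‖)) 0 1 := by
    intro γ
    by_cases h : 0 < f γ
    · have h1 := ((hJen γ h).1.const_smul (a := p γ)).const_smul (a := μ γ)
      exact h1
    · rw [hpn γ h]
      simp only [zero_mul, mul_zero]
      exact circleIntegrable_const _ _ _
  have hV : ∀ γ, CircleIntegrable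
      (fun w => μ γ * (p γ * Real.log (φ (psi s w) γ))) 0 1 := by
    intro γ
    have h1 := ((hLB γ).1.const_smul (a := p γ)).const_smul (a := μ γ)
    exact h1
  have hUs : CircleIntegrable
      (fun w => ∑ γ, μ γ * (p γ * Real.log ‖(P γ).eval (psi s w)‖)) 0 1 := by
    have := CircleIntegrable.sum univ (fun γ _ => hU γ)
    convert this using 1
    funext w
    rw [Finset.sum_apply]
  have hVs : CircleIntegrable (fun w => ∑ γ, μ γ * (p γ * Real.log (φ (psi s w) γ))) 0 1 := by
    have := CircleIntegrable.sum univ (fun γ _ => hV γ)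
    convert this using 1
    funext w
    rw [Finset.sum_apply]
  have hsc : ∀ (c : ℝ) (g : ℂ → ℝ), Real.circleAverage (fun w => c * g w) 0 1 =
      c * Real.circleAverage g 0 1 := by
    intro c g
    have := Real.circleAverage_fun_smul (a := c) (c := 0) (R := 1) (f := g)
    simpa only [smul_eq_mul] using this
  have hmono : Real.circleAverage
      ((fun w => ∑ γ, μ γ * (p γ * Real.log ‖(P γ).eval (psi s w)‖)) +
        (fun w => ∑ γ, μ γ * (p γ * Real.log (φ (psi s w) γ)))) 0 1 ≤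
      Real.circleAverage (fun _ => ∑ γ, μ γ * (p γ * Real.log (p γ)) + Real.log A * m) 0 1 := by
    unfold Real.circleAverage
    rw [smul_eq_mul, smul_eq_mul]
    refine mul_le_mul_of_nonneg_left ?_ (by positivity)
    refine intervalIntegral.integral_mono_ae (by positivity) (hUs.add hVs)
      (circleIntegrable_const (∑ γ, μ γ * (p γ * Real.log (p γ)) + Real.log A * m) 0 1) ?_
    have h1 := (hfinZ.preimage_circleMap 0 (one_ne_zero (α := ℝ))).ae_notMem MeasureTheory.volume
    filter_upwards [h1] with θ hθ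
    have h2 : ‖circleMap 0 1 θ‖ = 1 := by simp
    refine hpt (circleMap 0 1 θ) h2 fun γ hγ h3 => ?_
    exact hθ ⟨γ, hγ, h2, h3⟩
  rw [Real.circleAverage_const, Real.circleAverage_add hUs hVs,
    Real.circleAverage_fun_sum (fun γ _ => hU γ), Real.circleAverage_fun_sum (fun γ _ => hV γ)] at hmono
  have hlow : ∑ γ, μ γ * (p γ * (Real.log (p γ) - n * t)) ≤
      ∑ γ, Real.circleAverage (fun w => μ γ * (p γ * Real.log ‖(P γ).eval (psi s w)‖)) 0 1 := by
    apply Finset.sum_le_sum
    intro γ _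
    rw [hsc, hsc]
    by_cases h : 0 < f γ
    · rw [hpf γ h]
      exact mul_le_mul_of_nonneg_left (mul_le_mul_of_nonneg_left (hJen γ h).2 h.le) (hμ γ)
    · rw [hpn γ h]
      simp
  have hlow2 : ∑ γ, μ γ * (p γ * LB γ) ≤
      ∑ γ, Real.circleAverage (fun w => μ γ * (p γ * Real.log (φ (psi s w) γ))) 0 1 := by
    apply Finset.sum_le_sum
    intro γ _
    rw [hsc, hsc]
    exact mul_le_mul_of_nonneg_left (mul_le_mul_of_nonneg_left (hLB γ).2 (hp0 γ)) (hμ γ)
  have hsplit : ∑ γ, μ γ * (p γ * (Real.log (p γ) - n * t)) =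
      ∑ γ, μ γ * (p γ * Real.log (p γ)) - n * t * m := by
    rw [hmp, Finset.mul_sum, ← Finset.sum_sub_distrib]
    apply Finset.sum_congr rfl
    intro γ _
    ring
  have hsplit2 : ∑ γ, μ γ * p γ * LB γ = ∑ γ, μ γ * (p γ * LB γ) :=
    Finset.sum_congr rfl fun γ _ => by ring
  rw [hsplit] at hlow
  have hgoal : ∑ γ, μ γ * p γ * LB γ ≤ (n * t + Real.log A) * m := by
    rw [hsplit2]
    linarith
  exact hgoal

end Pool.Agent.N422.WS
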