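import Pool.Agent.N422.WS.Stm
import Pool.Agent.N422.SL.AR

/-! Project WS, part AR (helper702, after SL/AR of helper568 and NW/AR of helper92): from the model to periodic
functions, general form -/

set_option autoImplicit false

open Finset

namespace Pool.Agent.N422.WS

open Pool.Agent.N422.NW Pool.Agent.N422.SL

theorem t_AR3 : S_AR3 := by
  classical
  intro N q Om ν n Q M F hinj hp hO hM hqM hF hν
  have hO1 : ∀ i, Om i ⊆ range (q i) := fun i => (hO i).1
  have hO2 : ∀ i, 0 < (Om i).card ∧ (Om i).card < q i := fun i => (hO i).2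
  set pat : ℕ → Finset (Fin N) := AR_hit q Om with hpat
  set W : ℕ → ℝ := fun x => ∑ d ∈ Icc 1 Q, F d x with hWd
  set mu : Finset (Fin N) → ℝ := muT (fun i => ((Om i).card : ℝ) / q i) with hmu
  have hmuE : ∀ T, mu T = ∏ i, AR_lm q Om T i := fun T => rfl
  have hmu0 : ∀ T, 0 < mu T := by
    intro T
    rw [hmuE]
    exact Finset.prod_pos fun i _ => AR_lm_pos q Om hO2 T i
  have hM0 : (0 : ℝ) < M := by exact_mod_cast hM
  have hpatI : ∀ (x : ℕ) (T : Finset (Fin N)), pat x = T ↔
      ∀ i ∈ (univ : Finset (Fin N)), (i ∈ AR_hit q Om x ↔ i ∈ T) := by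
    intro x T
    constructor
    · rintro rfl i _
      exact Iff.rfl
    · intro h
      ext i
      exact h i (Finset.mem_univ i)
  -- the number of the `x` in a class
  have hcnt : ∀ T, ∑ x ∈ range M, (if pat x = T then (1 : ℝ) else 0) = M * mu T := by
    intro T
    have h1 := AR_ind q Om hinj hp hO1 M hM hqM T univ 1 (fun _ => (1 : ℝ)) (fun _ => rfl) (one_dvd M)
      (fun i _ h => (hp i).one_lt.ne' (Nat.dvd_one.1 h))
    rw [Finset.sum_const, Finset.card_range, nsmul_eq_mul, mul_one, ← hmuE, mul_comm] at h1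
    rw [← h1]
    refine Finset.sum_congr rfl fun x _ => ?_
    simp only [hpatI]
  -- the functions on the states
  set tr : (ℕ → ℝ) → Finset (Fin N) → ℝ := fun u T =>
    1 / (M * mu T) * ∑ x ∈ range M, (if pat x = T then u x else 0) with htr
  -- the level
  have hlev : ∀ d ∈ Icc 1 Q, ∀ T T' : Finset (Fin N),
      (∀ i ∈ univ.filter (fun i => q i ∣ d), (i ∈ T ↔ i ∈ T')) → tr (F d) T = tr (F d) T' := by
    intro d hd
    set S : Finset (Fin N) := univ.filter (fun i => q i ∣ d) with hS
    have key : ∀ T : Finset (Fin N), tr (F d) T = 1 / (M * ∏ i ∈ S, AR_lm q Om T i) *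
        ∑ x ∈ range M, (if ∀ i ∈ S, (i ∈ pat x ↔ i ∈ T) then F d x else 0) := by
      intro T
      have hper : Function.Periodic (fun x => if ∀ i ∈ S, (i ∈ pat x ↔ i ∈ T) then F d x else 0) d := by
        intro x
        have h1 := (hF d hd).1 x
        have h0 : ∀ i ∈ S, (i ∈ pat (x + d) ↔ i ∈ pat x) := by
          intro i hi
          rw [hS, Finset.mem_filter] at hi
          exact AR_per q Om d i hi.2 x
        have h2 : (∀ i ∈ S, (i ∈ pat (x + d) ↔ i ∈ T)) ↔ (∀ i ∈ S, (i ∈ pat x ↔ i ∈ T)) := by
          constructor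
          · intro h i hi; rw [← h0 i hi]; exact h i hi
          · intro h i hi; rw [h0 i hi]; exact h i hi
        simp only [h1, h2]
      have h3 := AR_ind q Om hinj hp hO1 M hM hqM T (univ \ S) d _ hper
        (hF d hd).2 (by
          intro i hi
          rw [Finset.mem_sdiff, hS, Finset.mem_filter] at hi
          intro h
          exact hi.2 ⟨Finset.mem_univ _, h⟩)
      have h4 : ∑ x ∈ range M, (if pat x = T then F d x else 0) =
          ∑ x ∈ range M, (if ∀ i ∈ univ \ S, (i ∈ AR_hit q Om x ↔ i ∈ T) then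
            (if ∀ i ∈ S, (i ∈ pat x ↔ i ∈ T) then F d x else 0) else 0) := by
        apply Finset.sum_congr rfl
        intro x _
        by_cases h : pat x = T
        · have h5 := (hpatI x T).1 h
          rw [if_pos h, if_pos (fun i _ => h5 i (Finset.mem_univ i)),
            if_pos (fun i _ => h5 i (Finset.mem_univ i))]
        · rw [if_neg h]
          by_cases h5 : ∀ i ∈ univ \ S, (i ∈ AR_hit q Om x ↔ i ∈ T)
          · rw [if_pos h5, if_neg]
            intro h6
            apply h
            rw [hpatI]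
            intro i _
            by_cases hi : i ∈ S
            · exact h6 i hi
            · exact h5 i (Finset.mem_sdiff.mpr ⟨Finset.mem_univ _, hi⟩)
          · rw [if_neg h5]
      have h5 : mu T = (∏ i ∈ univ \ S, AR_lm q Om T i) * ∏ i ∈ S, AR_lm q Om T i := by
        rw [Finset.prod_sdiff (Finset.subset_univ S)]
        exact hmuE T
      have h6 : 0 < ∏ i ∈ S, AR_lm q Om T i := Finset.prod_pos fun i _ => AR_lm_pos q Om hO2 T i
      have h7 : 0 < ∏ i ∈ univ \ S, AR_lm q Om T i :=
        Finset.prod_pos fun i _ => AR_lm_pos q Om hO2 T i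
      simp only [htr]
      rw [h4, h3, h5]
      field_simp
    intro T T' hT
    rw [key T, key T']
    have h1 : ∏ i ∈ S, AR_lm q Om T i = ∏ i ∈ S, AR_lm q Om T' i := by
      refine Finset.prod_congr rfl fun i hi => ?_
      unfold AR_lm
      by_cases h : i ∈ T
      · rw [if_pos h, if_pos ((hT i hi).1 h)]
      · rw [if_neg h, if_neg (fun h' => h ((hT i hi).2 h'))]
    have h2 : ∀ x, (∀ i ∈ S, (i ∈ pat x ↔ i ∈ T)) ↔ (∀ i ∈ S, (i ∈ pat x ↔ i ∈ T')) := by
      intro x
      constructor
      · intro h i hi; rw [← hT i hi]; exact h i hi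
      · intro h i hi; rw [hT i hi]; exact h i hi
    rw [h1]
    simp only [h2]
  have hWsum : ∀ T, tr W T = ∑ y : Fin Q, tr (F (y + 1)) T := by
    intro T
    have h1 : ∀ g : ℕ → ℝ, ∑ y : Fin Q, g (y + 1) = ∑ d ∈ Icc 1 Q, g d := by
      intro g
      rw [Fin.sum_univ_eq_sum_range (fun y => g (y + 1)) Q, Finset.range_eq_Ico,
        Finset.sum_Ico_add' g 0 Q 1]
      apply Finset.sum_congr _ (fun _ _ => rfl)
      ext d
      simp only [Finset.mem_Ico, Finset.mem_Icc]
      omega
    rw [h1 (fun d => tr (F d) T)]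
    simp only [htr]
    rw [← Finset.mul_sum, Finset.sum_comm]
    congr 1
    apply Finset.sum_congr rfl
    intro x _
    split_ifs
    · rfl
    · simp
  refine ⟨tr W, ⟨Q, fun y => univ.filter (fun i => q i ∣ (y + 1 : ℕ)), fun y => tr (F (y + 1)), ?_, ?_,
    hWsum⟩, ?_, ?_, ?_⟩
  · intro y
    exact hν (y + 1) (Finset.mem_Icc.mpr ⟨by omega, by omega⟩)
  · intro y T T' h
    exact hlev (y + 1) (Finset.mem_Icc.mpr ⟨by omega, by omega⟩) T T' h
  · intro T b hb
    have hpos : 0 < (M : ℝ) * mu T := mul_pos hM0 (hmu0 T)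
    have h1 : b * (M * mu T) ≤ ∑ x ∈ range M, (if pat x = T then W x else 0) := by
      rw [← hcnt T, Finset.mul_sum]
      refine Finset.sum_le_sum fun x _ => ?_
      split_ifs with h
      · rw [mul_one]
        exact hb x h
      · rw [mul_zero]
    show b ≤ 1 / (M * mu T) * ∑ x ∈ range M, (if pat x = T then W x else 0)
    rw [one_div, ← div_eq_inv_mul, le_div_iff₀ hpos]
    exact h1
  · intro T b hb
    have hpos : 0 < (M : ℝ) * mu T := mul_pos hM0 (hmu0 T)
    have h1 : ∑ x ∈ range M, (if pat x = T then W x else 0) ≤ b * (M * mu T) := by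
      rw [← hcnt T, Finset.mul_sum]
      refine Finset.sum_le_sum fun x _ => ?_
      split_ifs with h
      · rw [mul_one]
        exact hb x h
      · rw [mul_zero]
    show 1 / (M * mu T) * ∑ x ∈ range M, (if pat x = T then W x else 0) ≤ b
    rw [one_div, ← div_eq_inv_mul, div_le_iff₀ hpos]
    exact h1
  · intro G
    have h1 : ∀ T, mu T * tr W T = 1 / M * ∑ x ∈ range M, (if pat x = T then W x else 0) := by
      intro T
      simp only [htr]
      have := (hmu0 T).ne'
      field_simp
    have h2 : ∀ T, mu T * tr W T * G T = 1 / M * ∑ x ∈ range M, (if pat x = T then W x * G T else 0) := by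
      intro T
      rw [h1 T, mul_assoc, Finset.sum_mul]
      congr 1
      refine Finset.sum_congr rfl fun x _ => ?_
      rw [ite_mul, zero_mul]
    show ∑ T, mu T * tr W T * G T = (∑ x ∈ range M, W x * G (pat x)) / M
    simp only [h2]
    rw [← Finset.mul_sum, Finset.sum_comm, one_div, ← div_eq_inv_mul]
    congr 1
    refine Finset.sum_congr rfl fun x _ => ?_
    rw [Finset.sum_ite_eq]
    simp

end Pool.Agent.N422.WS
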