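import Pool.Agent.N422.WS.Stm

/-! WS/FIN: all scales and the corollaries (helper402 for helper422). -/

set_option autoImplicit false
set_option maxHeartbeats 1000000

open Finset

namespace Pool.Agent.N422.WS

open Pool.Agent.N422.NW Pool.Agent.N422.SL

lemma fin_hits_mono {P P' : Finset ℕ} (h : P ⊆ P') (H : Finset ℕ) (n : ℕ) :
    hits P H n ≤ hits P' H n := by
  unfold hits
  exact card_le_card (filter_subset_filter _ h)

lemma fin_PW_sub (Q : ℕ) (a b : ℝ) : PW Q a b ⊆ (Icc 1 Q).filter Nat.Prime := by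
  intro p hp
  unfold PW at hp
  rw [mem_filter] at hp ⊢
  exact ⟨hp.1, hp.2.1⟩

/-- `1 / x ≤ √(k / x)` -/
lemma fin_inv_le {k x : ℝ} (hx : 0 < x) (hk : 0 < k) (h : 1 / k ≤ x) : 1 / x ≤ √(k / x) := by
  apply Real.le_sqrt_of_sq_le
  rw [div_le_iff₀ hk] at h
  rw [div_pow, one_pow, div_le_div_iff₀ (by positivity) hx]
  nlinarith

/-- one window -/
lemma fin_win (h1 : S_WINA) {k : ℕ} (B : ℝ) (hk : 2 ≤ k) {v b : ℝ} (hv : 1 / (k : ℝ) ≤ v)
    (hvb : v < b) (hb : b ≤ 1) (hb2 : b ≤ 2 * v) : ∃ Q0 : ℕ, ∀ Q : ℕ, Q0 ≤ Q →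
    ∀ H : Finset ℕ, H.card = k → (∀ h ∈ H, (h : ℝ) ≤ (Q : ℝ) ^ B) → ∀ c : ℕ → ℕ → ℝ,
    (∀ n, 0 ≤ wt Q c n) → 0 ≤ mn Q c ∧
      ∑ p ∈ PW Q v b, |mnI Q c H p - ((SL.om H p).card : ℝ) / p * mn Q c| ≤
        96 * Real.sqrt (k / v) * mn Q c := by
  have hkR : (0 : ℝ) < k := by exact_mod_cast (by omega : 0 < k)
  have hv0 : 0 < v := lt_of_lt_of_le (by positivity) hv
  obtain ⟨Q0, hQ0⟩ := h1 k v b B (by omega) hv0 hvb hb
  refine ⟨Q0, fun Q hQ H hH hHB c hc => ?_⟩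
  have h := (hQ0 Q hQ H hH hHB c).1 hc
  have h0 : 0 ≤ ∑ p ∈ PW Q v b, |mnI Q c H p - ((SL.om H p).card : ℝ) / p * mn Q c| :=
    sum_nonneg fun _ _ => abs_nonneg _
  have hpos : 0 < 48 * (Real.sqrt (k * Real.log (b / v) / v) + 1 / v) := by positivity
  have hmn : 0 ≤ mn Q c := by
    by_contra hneg
    push Not at hneg
    have := mul_neg_of_pos_of_neg hpos hneg
    linarith
  refine ⟨hmn, h.trans (mul_le_mul_of_nonneg_right ?_ hmn)⟩
  have hl : Real.log (b / v) ≤ 1 := by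
    have h2 : b / v ≤ 2 := by rw [div_le_iff₀ hv0]; exact hb2
    have h3 : Real.log (b / v) ≤ Real.log 2 :=
      Real.log_le_log (div_pos (by linarith) hv0) h2
    have := Real.log_two_lt_d9
    linarith
  have h4 : Real.sqrt (k * Real.log (b / v) / v) ≤ Real.sqrt (k / v) := by
    apply Real.sqrt_le_sqrt
    apply div_le_div_of_nonneg_right _ hv0.le
    nlinarith
  have h5 := fin_inv_le hv0 hkR hv
  linarith

lemma fin_scale (h1 : S_WINA) {k : ℕ} (B : ℝ) (hk : 2 ≤ k) (n : ℕ) : ∀ v : ℝ, 1 / (k : ℝ) ≤ v →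
    v < 1 → 1 ≤ v * 2 ^ n → ∃ Q0 : ℕ, ∀ Q : ℕ, Q0 ≤ Q →
    ∀ H : Finset ℕ, H.card = k → (∀ h ∈ H, (h : ℝ) ≤ (Q : ℝ) ^ B) → ∀ c : ℕ → ℕ → ℝ,
    (∀ n, 0 ≤ wt Q c n) → 0 ≤ mn Q c ∧
      ∑ p ∈ PW Q v 1, |mnI Q c H p - ((SL.om H p).card : ℝ) / p * mn Q c| ≤
        384 * Real.sqrt (k / v) * mn Q c := by
  have hkR : (0 : ℝ) < k := by exact_mod_cast (by omega : 0 < k)
  induction n with
  | zero =>
    intro v _ hv1 hv2
    rw [pow_zero, mul_one] at hv2
    linarith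
  | succ n ih =>
    intro v hv hv1 hv2
    have hv0 : 0 < v := lt_of_lt_of_le (by positivity) hv
    rcases le_or_gt 1 (2 * v) with h2 | h2
    · obtain ⟨Q0, hQ0⟩ := fin_win h1 B hk hv hv1 le_rfl h2
      refine ⟨Q0, fun Q hQ H hH hHB c hc => ?_⟩
      obtain ⟨g1, g2⟩ := hQ0 Q hQ H hH hHB c hc
      refine ⟨g1, g2.trans (mul_le_mul_of_nonneg_right ?_ g1)⟩
      have := Real.sqrt_nonneg (k / v)
      linarith
    · obtain ⟨Q0, hQ0⟩ := fin_win h1 B hk hv (by linarith : v < 2 * v) h2.le le_rfl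
      obtain ⟨Q1, hQ1⟩ := ih (2 * v) (by linarith) h2 (by rw [pow_succ] at hv2; linarith)
      refine ⟨Q0 + Q1, fun Q hQ H hH hHB c hc => ?_⟩
      obtain ⟨g1, g2⟩ := hQ0 Q (by omega) H hH hHB c hc
      obtain ⟨-, g3⟩ := hQ1 Q (by omega) H hH hHB c hc
      refine ⟨g1, ?_⟩
      have hsub : PW Q v 1 ⊆ PW Q v (2 * v) ∪ PW Q (2 * v) 1 := by
        intro p hp
        unfold PW at hp ⊢
        rw [mem_union, mem_filter, mem_filter]
        rw [mem_filter] at hp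
        rcases le_or_gt (p : ℝ) ((Q : ℝ) ^ (2 * v)) with h | h
        · exact Or.inl ⟨hp.1, hp.2.1, hp.2.2.1, h⟩
        · exact Or.inr ⟨hp.1, hp.2.1, h, hp.2.2.2⟩
      have h3 : ∑ p ∈ PW Q v 1, |mnI Q c H p - ((SL.om H p).card : ℝ) / p * mn Q c| ≤
          ∑ p ∈ PW Q v (2 * v), |mnI Q c H p - ((SL.om H p).card : ℝ) / p * mn Q c| +
          ∑ p ∈ PW Q (2 * v) 1, |mnI Q c H p - ((SL.om H p).card : ℝ) / p * mn Q c| := by
        refine (sum_le_sum_of_subset_of_nonneg hsub fun _ _ _ => abs_nonneg _).trans ?_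
        rw [← sum_union_inter]
        have : 0 ≤ ∑ p ∈ PW Q v (2 * v) ∩ PW Q (2 * v) 1,
            |mnI Q c H p - ((SL.om H p).card : ℝ) / p * mn Q c| :=
          sum_nonneg fun _ _ => abs_nonneg _
        linarith
      refine h3.trans ((add_le_add g2 g3).trans ?_)
      rw [← add_mul]
      refine mul_le_mul_of_nonneg_right ?_ g1
      have h4 : Real.sqrt (k / (2 * v)) ≤ 3 / 4 * Real.sqrt (k / v) := by
        apply Real.sqrt_le_iff.2
        refine ⟨by positivity, ?_⟩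
        rw [mul_pow, Real.sq_sqrt (by positivity)]
        have : (k : ℝ) / (2 * v) = 1 / 2 * (k / v) := by field_simp
        rw [this]
        have : 0 ≤ (k : ℝ) / v := by positivity
        nlinarith
      linarith

theorem t_FIN (h1 : S_WINA) (h2 : S_MER3) : S_FIN := by
  refine ⟨1000, by norm_num, fun k B hk => ?_⟩
  have hk0 : 0 < k := by omega
  have hkR : (0 : ℝ) < k := by exact_mod_cast hk0
  have hk2 : (2 : ℝ) ≤ k := by exact_mod_cast hk
  have key : ∀ v : ℝ, 1 / (k : ℝ) ≤ v → v < 1 → ∃ Q0 : ℕ, ∀ Q : ℕ, Q0 ≤ Q →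
      ∀ H : Finset ℕ, H.card = k → (∀ h ∈ H, (h : ℝ) ≤ (Q : ℝ) ^ B) → ∀ c : ℕ → ℕ → ℝ,
      (∀ n, 0 ≤ wt Q c n) → 0 ≤ mn Q c ∧
        ∑ p ∈ PW Q v 1, |mnI Q c H p - ((SL.om H p).card : ℝ) / p * mn Q c| ≤
          384 * Real.sqrt (k / v) * mn Q c := by
    intro v hv hv1
    have hv0 : 0 < v := lt_of_lt_of_le (by positivity) hv
    obtain ⟨n, hn⟩ := pow_unbounded_of_one_lt (1 / v) (by norm_num : (1 : ℝ) < 2)
    refine fin_scale h1 B hk n v hv hv1 ?_
    rw [div_lt_iff₀ hv0] at hn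
    linarith
  refine ⟨?_, ?_, ?_, ?_⟩
  · intro v hv hv1
    obtain ⟨Q0, hQ0⟩ := key v hv hv1
    refine ⟨Q0, fun Q hQ H hH hHB c hc => ?_⟩
    obtain ⟨g1, g2⟩ := hQ0 Q hQ H hH hHB c hc
    refine g2.trans (mul_le_mul_of_nonneg_right ?_ g1)
    have := Real.sqrt_nonneg (k / v)
    linarith
  · have hv1 : 1 / (k : ℝ) < 1 := by rw [div_lt_one hkR]; linarith
    obtain ⟨Q0, hQ0⟩ := key (1 / k) le_rfl hv1
    obtain ⟨Q1, hQ1⟩ := h2 k (1 / k) 1 B 1 (by omega) (by positivity) hv1 le_rfl one_pos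
    refine ⟨Q0 + Q1, fun Q hQ H hH hHB c hc => ?_⟩
    obtain ⟨g1, g2⟩ := hQ0 Q (by omega) H hH hHB c hc
    have g3 := hQ1 Q (by omega) H hH hHB
    have e1 : Real.sqrt ((k : ℝ) / (1 / k)) = k := by
      rw [div_div_eq_mul_div, div_one, Real.sqrt_mul_self hkR.le]
    rw [e1] at g2
    have e2 : (1 : ℝ) / (1 / k) = k := by rw [one_div_one_div]
    rw [e2] at g3
    -- the mean of the weighted number of hits
    have e3 : ∑ p ∈ PW Q (1 / k) 1, mnI Q c H p =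
        (∑ n ∈ range Q.factorial, wt Q c n * (hits (PW Q (1 / k) 1) H n : ℝ)) /
          (Q.factorial : ℝ) := by
      unfold mnI
      rw [← sum_div, sum_comm]
      congr 1
      refine sum_congr rfl fun n _ => ?_
      rw [← mul_sum]
      congr 1
      unfold hits
      rw [card_filter]
      push_cast
      rfl
    have e4 : (∑ n ∈ range Q.factorial, wt Q c n * (hits (PW Q (1 / k) 1) H n : ℝ)) /
          (Q.factorial : ℝ) ≤
        (∑ n ∈ range Q.factorial, wt Q c n * (hits ((Icc 1 Q).filter Nat.Prime) H n : ℝ)) /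
          (Q.factorial : ℝ) := by
      apply div_le_div_of_nonneg_right _ (Nat.cast_nonneg _)
      refine sum_le_sum fun n _ => mul_le_mul_of_nonneg_left ?_ (hc n)
      exact_mod_cast fin_hits_mono (fin_PW_sub Q (1 / k) 1) H n
    rw [← e3] at e4
    refine le_trans ?_ e4
    have e5 : (∑ p ∈ PW Q (1 / k) 1, ((SL.om H p).card : ℝ) / p) * mn Q c -
        384 * k * mn Q c ≤ ∑ p ∈ PW Q (1 / k) 1, mnI Q c H p := by
      have : ∑ p ∈ PW Q (1 / k) 1, (((SL.om H p).card : ℝ) / p * mn Q c - mnI Q c H p) ≤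
          ∑ p ∈ PW Q (1 / k) 1, |mnI Q c H p - ((SL.om H p).card : ℝ) / p * mn Q c| := by
        refine sum_le_sum fun p _ => ?_
        rw [abs_sub_comm]
        exact le_abs_self _
      rw [sum_sub_distrib, ← sum_mul] at this
      linarith
    refine le_trans ?_ e5
    rw [← sub_mul]
    refine mul_le_mul_of_nonneg_right ?_ g1
    have g4 := (abs_le.1 g3).1
    linarith
  · intro v hv hv1
    obtain ⟨Q0, hQ0⟩ := h1 k v 1 B (by omega) hv hv1 le_rfl
    refine ⟨Q0, fun Q hQ H hH hHB c r hr hn => ?_⟩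
    refine (hQ0 Q hQ H hH hHB c).2 r (hr.trans ?_) hn
    have := Real.sqrt_nonneg (k * Real.log (1 / v) / v)
    linarith
  · obtain ⟨y, hy⟩ : ∃ y : ℝ, y = Real.log k := ⟨_, rfl⟩
    have hy1 : 1 / 2 ≤ y := by
      have h3 := Real.log_two_gt_d9
      have h4 := Real.log_le_log (by norm_num) hk2
      rw [hy]; linarith
    have hy2 : y < k := by
      have := Real.log_le_sub_one_of_pos hkR
      rw [hy]; linarith
    have hy0 : 0 < y := by linarith
    have hv0 : 0 < y / k := by positivity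
    have hv1 : y / k < 1 := by rw [div_lt_one hkR]; exact hy2
    obtain ⟨Q0, hQ0⟩ := h1 k (y / k) 1 B (by omega) hv0 hv1 le_rfl
    refine ⟨Q0, fun Q hQ H hH hHB c r hr hn => ?_⟩
    refine (hQ0 Q hQ H hH hHB c).2 r ?_ (fun n hn' => hn n (lt_of_lt_of_le hn' ?_))
    · have e1 : Real.log (1 / (y / k)) = y - Real.log y := by
        rw [one_div_div, Real.log_div hkR.ne' hy0.ne', hy]
      rw [← hy] at hr
      rw [e1]
      have h3 : Real.sqrt (k * (y - Real.log y) / (y / k)) ≤ 2 * k := by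
        apply Real.sqrt_le_iff.2
        refine ⟨by positivity, ?_⟩
        rw [div_le_iff₀ hv0]
        have h4 : y - Real.log y ≤ 4 * y := by
          have h5 := Real.one_sub_inv_le_log_of_pos hy0
          have h6 : y⁻¹ ≤ 2 := by
            rw [inv_le_comm₀ hy0 (by norm_num)]
            linarith
          linarith
        calc (k : ℝ) * (y - Real.log y) ≤ k * (4 * y) := mul_le_mul_of_nonneg_left h4 hkR.le
          _ = (2 * k) ^ 2 * (y / k) := by field_simp; ring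
      nlinarith
    · exact_mod_cast fin_hits_mono (fin_PW_sub Q (y / k) 1) H n

end Pool.Agent.N422.WS
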