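import Pool.Agent.N422.WS.Stm

/-! Project WS (helper422): the adjoint identity of the product kernel (helper966). -/

set_option autoImplicit false

open Finset

namespace Pool.Agent.N422.WS

open Pool.Agent.N422.NW Pool.Agent.N422.SL

theorem ka_sum {N : ℕ} (a : Fin N → Bool → ℝ) :
    ∑ T : Finset (Fin N), ∏ i, a i (decide (i ∈ T)) = ∏ i, (a i true + a i false) := by
  rw [Finset.prod_add, Finset.powerset_univ]
  refine Finset.sum_congr rfl fun T _ => ?_
  rw [← Finset.prod_sdiff (Finset.subset_univ T), mul_comm]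
  congr 1
  · refine Finset.prod_congr rfl fun i hi => ?_
    rw [decide_eq_true hi]
  · refine Finset.prod_congr rfl fun i hi => ?_
    rw [decide_eq_false (Finset.mem_sdiff.1 hi).2]

theorem ka_nonneg {θ l g : ℝ} (hg : 0 ≤ g ∧ g ≤ 1) (hl : |l| ≤ 1 / 2) (hθ : 0 ≤ θ ∧ θ ≤ 1 / 2)
    (a b : Bool) : 0 ≤ k1 θ l g a b := by
  have h1 := abs_le.1 hl
  have h2 : 0 ≤ (1 - l) * θ := mul_nonneg (by linarith) hθ.1
  have h3 : (1 - l) * θ ≤ 1 := by nlinarith
  have h4 : ∀ b : Bool, 0 ≤ (if b then g else 1 - g) := by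
    intro b
    split_ifs
    · exact hg.1
    · linarith [hg.2]
  have h5 : 0 ≤ (if a then θ else (1 - l) * θ) := by
    split_ifs
    · exact hθ.1
    · exact h2
  have h6 : (if a then θ else (1 - l) * θ) ≤ 1 := by
    split_ifs
    · linarith [hθ.2]
    · exact h3
  unfold k1
  refine add_nonneg (mul_nonneg (by linarith) ?_) (mul_nonneg h5 (h4 b))
  split_ifs <;> norm_num

theorem ka_pos {ω l g : ℝ} (hg : 0 ≤ g ∧ g ≤ 1) (hl : |l| ≤ 1 / 2) (hω : 0 ≤ ω ∧ ω ≤ 1) :
    0 < 1 + l * ω ∧ 0 < 1 + l * ω * g := by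
  have h1 : |l * ω| ≤ 1 / 2 := by
    rw [abs_mul, abs_of_nonneg hω.1]
    calc |l| * ω ≤ |l| * 1 := mul_le_mul_of_nonneg_left hω.2 (abs_nonneg _)
      _ ≤ 1 / 2 := by rw [mul_one]; exact hl
  have h2 : |l * ω * g| ≤ 1 / 2 := by
    rw [abs_mul, abs_of_nonneg hg.1]
    calc |l * ω| * g ≤ |l * ω| * 1 := mul_le_mul_of_nonneg_left hg.2 (abs_nonneg _)
      _ ≤ 1 / 2 := by rw [mul_one]; exact h1
  exact ⟨by linarith [(abs_le.1 h1).1], by linarith [(abs_le.1 h2).1]⟩

theorem ka_om {θ : ℝ} (hθ : 0 ≤ θ ∧ θ ≤ 1 / 2) : 0 ≤ θ / (1 - θ) ∧ θ / (1 - θ) ≤ 1 := by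
  have h1 : 0 < 1 - θ := by linarith [hθ.2]
  refine ⟨div_nonneg hθ.1 h1.le, ?_⟩
  rw [div_le_one h1]
  linarith [hθ.2]

theorem ka_local {θ l g : ℝ} (hg : 0 ≤ g ∧ g ≤ 1) (hl : |l| ≤ 1 / 2) (hθ : 0 ≤ θ ∧ θ ≤ 1 / 2)
    (c : Bool) :
    g * ((1 + l * (θ / (1 - θ))) / (1 + l * (θ / (1 - θ)) * g)) * k1 θ l g true c +
      (1 - g) * (1 / (1 + l * (θ / (1 - θ)) * g)) * k1 θ l g false c =
        if c then g else 1 - g := by
  have hω : θ / (1 - θ) * (1 - θ) = θ := div_mul_cancel₀ _ (by linarith [hθ.2])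
  have hD := (ka_pos hg hl (ka_om hθ)).2
  set ω := θ / (1 - θ) with hωd
  have h1 : g * ((1 + l * ω) / (1 + l * ω * g)) * k1 θ l g true c +
      (1 - g) * (1 / (1 + l * ω * g)) * k1 θ l g false c =
      (g * (1 + l * ω) * k1 θ l g true c + (1 - g) * k1 θ l g false c) / (1 + l * ω * g) := by
    ring
  rw [h1, div_eq_iff hD.ne']
  cases c
  · simp only [k1, if_true, Bool.false_eq_true, if_false, Bool.true_eq_false]
    linear_combination (-(1 - g) * l * g) * hω
  · simp only [k1, if_true, Bool.false_eq_true, if_false]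
    linear_combination (g * l - g ^ 2 * l) * hω

theorem t_KA : S_KA := by
  intro N g l th hg hl hth
  refine ⟨fun T T' => Finset.prod_nonneg fun i _ => ka_nonneg (hg i) (hl i) (hth i) _ _,
    fun T => Finset.prod_pos fun i _ => ?_, fun T' => ?_, fun T T' => ?_⟩
  · have h := ka_pos (hg i) (hl i) (ka_om (hth i))
    refine div_pos ?_ h.2
    split_ifs
    · exact h.1
    · exact one_pos
  · obtain ⟨A, hA⟩ : ∃ A : Fin N → Bool → ℝ, A = fun (i : Fin N) (b : Bool) =>
        (if b then g i else 1 - g i) * ((if b then 1 + l i * (th i / (1 - th i)) else 1) /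
          (1 + l i * (th i / (1 - th i)) * g i)) * k1 (th i) (l i) (g i) b (decide (i ∈ T')) :=
      ⟨_, rfl⟩
    have h1 : ∀ T : Finset (Fin N), muT g T * ph (fun i => th i / (1 - th i)) l g T *
        kk th l g T T' = ∏ i, A i (decide (i ∈ T)) := by
      intro T
      unfold muT ph kk
      rw [← Finset.prod_mul_distrib, ← Finset.prod_mul_distrib, hA]
      refine Finset.prod_congr rfl fun i _ => ?_
      by_cases h : i ∈ T <;> simp [h]
    rw [Finset.sum_congr rfl fun T _ => h1 T, ka_sum]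
    unfold muT
    refine Finset.prod_congr rfl fun i _ => ?_
    have h2 := ka_local (hg i) (hl i) (hth i) (decide (i ∈ T'))
    rw [hA]
    simp only [if_true, Bool.false_eq_true, if_false]
    rw [h2]
    simp
  · unfold kk
    have h1 : ∀ i, k1 (0 : ℝ) (l i) (g i) (decide (i ∈ T)) (decide (i ∈ T')) =
        if (i ∈ T ↔ i ∈ T') then 1 else 0 := by
      intro i
      unfold k1
      by_cases h : i ∈ T <;> by_cases h' : i ∈ T' <;> simp [h, h']
    rw [Finset.prod_congr rfl fun i _ => h1 i]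
    by_cases h : T' = T
    · subst h
      simp
    · rw [if_neg h]
      have h2 : ∃ i, ¬ (i ∈ T ↔ i ∈ T') := by
        by_contra h3
        push Not at h3
        exact h (Finset.ext fun i => (h3 i).symm)
      obtain ⟨i, hi⟩ := h2
      exact Finset.prod_eq_zero (Finset.mem_univ i) (if_neg hi)

end Pool.Agent.N422.WS

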