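import Pool.Agent.N422.WS.Stm

/-! Project WS (helper422), piece KM (helper492): the inequality in the model, from W, KA, KP, GEN2. -/

set_option autoImplicit false

open Finset

namespace Pool.Agent.N422.WS

open Pool.Agent.N422.NW Pool.Agent.N422.SL

theorem KM_psi_norm {s : ℝ} (hs1 : s < 1) (hs0 : 0 < s) {w : ℂ} (hw : ‖w‖ = 1) :
    ‖psi s w‖ = 1 := by
  have h1 : ‖w + s‖ ^ 2 = ‖1 + s * w‖ ^ 2 := by
    have h2 : Complex.normSq w = 1 := by rw [Complex.normSq_eq_norm_sq, hw]; norm_num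
    rw [← Complex.normSq_eq_norm_sq, ← Complex.normSq_eq_norm_sq]
    rw [Complex.normSq_apply] at h2 ⊢
    rw [Complex.normSq_apply]
    simp only [Complex.add_re, Complex.add_im, Complex.ofReal_re, Complex.ofReal_im,
      Complex.one_re, Complex.one_im, Complex.mul_re, Complex.mul_im]
    linear_combination (1 - s ^ 2) * h2
  have h3 : ‖w + s‖ = ‖1 + s * w‖ := by
    have := norm_nonneg (w + s)
    have := norm_nonneg (1 + s * w)
    exact (sq_eq_sq₀ (norm_nonneg _) (norm_nonneg _)).1 h1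
  have h4 : ‖1 + s * w‖ ≠ 0 := by
    intro h
    have h5 : (1 : ℂ) + s * w = 0 := norm_eq_zero.1 h
    have h6 : (s : ℂ) * w = -1 := by linear_combination h5
    have h7 : ‖(s : ℂ) * w‖ = 1 := by rw [h6]; simp
    rw [norm_mul, hw, mul_one, Complex.norm_real, Real.norm_eq_abs, abs_of_pos hs0] at h7
    linarith
  unfold psi
  rw [norm_div, h3, div_self h4]

theorem KM_k1_cast (th l g : ℝ) (a b : Bool) :
    k1 (th : ℂ) (l : ℂ) (g : ℂ) a b = ((k1 th l g a b : ℝ) : ℂ) := by
  unfold k1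
  cases a <;> cases b <;> simp

theorem KM_kk_cast {N : ℕ} (th l g : Fin N → ℝ) (T T' : Finset (Fin N)) :
    kk (fun i => (th i : ℂ)) (fun i => (l i : ℂ)) (fun i => (g i : ℂ)) T T' =
      ((kk th l g T T' : ℝ) : ℂ) := by
  unfold kk
  rw [Complex.ofReal_prod]
  exact Finset.prod_congr rfl fun i _ => KM_k1_cast _ _ _ _ _

theorem KM_log_ph {N : ℕ} (om l g : Fin N → ℝ) (hl : ∀ i, |l i| ≤ 1 / 2)
    (hg : ∀ i, 0 ≤ g i ∧ g i ≤ 1) (ho : ∀ i, 0 ≤ om i ∧ om i ≤ 1) (T : Finset (Fin N)) :
    Real.log (ph om l g T) = ∑ i ∈ T, Real.log (1 + l i * om i) -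
      ∑ i, Real.log (1 + l i * om i * g i) := by
  have h1 : ∀ i, |l i * om i| ≤ 1 / 2 := fun i => by
    rw [abs_mul, abs_of_nonneg (ho i).1]
    nlinarith [hl i, (ho i).1, (ho i).2, abs_nonneg (l i)]
  have h2 : ∀ i, 0 < 1 + l i * om i := fun i => by
    have := (abs_le.1 (h1 i)).1
    linarith
  have h3 : ∀ i, 0 < 1 + l i * om i * g i := fun i => by
    have h4 : |l i * om i * g i| ≤ 1 / 2 := by
      rw [abs_mul, abs_of_nonneg (hg i).1]
      nlinarith [h1 i, (hg i).1, (hg i).2, abs_nonneg (l i * om i)]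
    have := (abs_le.1 h4).1
    linarith
  unfold ph
  rw [Real.log_prod]
  · have h5 : ∀ i, Real.log ((if i ∈ T then 1 + l i * om i else 1) / (1 + l i * om i * g i)) =
        (if i ∈ T then Real.log (1 + l i * om i) else 0) - Real.log (1 + l i * om i * g i) := by
      intro i
      rw [Real.log_div _ (h3 i).ne']
      · split_ifs
        · rfl
        · rw [Real.log_one]
      · split_ifs
        · exact (h2 i).ne'
        · exact one_ne_zero
    rw [Finset.sum_congr rfl fun i _ => h5 i, Finset.sum_sub_distrib]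
    congr 1
    rw [Finset.sum_ite_mem, Finset.univ_inter]
  · intro i _
    refine div_ne_zero ?_ (h3 i).ne'
    split_ifs
    · exact (h2 i).ne'
    · exact one_ne_zero

theorem t_KM (h1 : S_W) (h2 : S_KA) (h3 : S_KP) (h4 : S_GEN2) : S_KM := by
  intro N n g l ν f t ht hg hl hL hpos
  have hs0 : 0 < Real.exp (-t) := Real.exp_pos _
  have hs1 : Real.exp (-t) < 1 := by
    rw [← Real.exp_zero]
    exact Real.exp_lt_exp.2 (by linarith)
  have key : ∀ z : ℂ, ‖z‖ = 1 → ∀ i, 0 ≤ thr t (ν i) z ∧ thr t (ν i) z ≤ 1 / 2 :=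
    fun z hz i => (((h1 (ν i) t ht).1 z hz).2)
  have home : ∀ z : ℂ, ‖z‖ = 1 → ∀ i, 0 ≤ ome t (ν i) z ∧ ome t (ν i) z ≤ 1 := by
    intro z hz i
    have h := key z hz i
    unfold ome
    have h5 : 0 < 1 - thr t (ν i) z := by linarith
    exact ⟨div_nonneg h.1 h5.le, (div_le_one h5).2 (by linarith)⟩
  refine h4 (Finset (Fin N)) n (muT g) f t
    (fun z T T' => kk (fun i => thc t (ν i) z) (fun i => (l i : ℂ)) (fun i => (g i : ℂ)) T T')
    (fun z T => ph (fun i => ome t (ν i) z) l g T)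
    (fun T => ∑ i ∈ T, (l i - l i ^ 2) * Wv t (ν i) - ∑ i, l i * g i * Wv t (ν i))
    ?_ ht ?_ ?_ ?_ ?_ hpos
  · intro T
    unfold muT
    refine Finset.prod_nonneg fun i _ => ?_
    split_ifs
    · exact (hg i).1
    · linarith [(hg i).2]
  · intro T T'
    have h5 : (fun i => thc t (ν i) ((Real.exp (-t) : ℝ) : ℂ)) = fun _ : Fin N => ((0 : ℝ) : ℂ) := by
      funext i
      rw [(h1 (ν i) t ht).2.1, Complex.ofReal_zero]
    change kk (fun i => thc t (ν i) ((Real.exp (-t) : ℝ) : ℂ)) (fun i => (l i : ℂ))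
      (fun i => (g i : ℂ)) T T' = _
    rw [h5, KM_kk_cast (fun _ => 0) l g T T',
      (h2 N g l (fun _ => 0) hg hl (fun _ => ⟨le_rfl, by norm_num⟩)).2.2.2 T T']
    split_ifs <;> simp
  · intro T
    exact h3 N n g l ν f t ht hL T
  · intro z hz
    have h5 := h2 N g l (fun i => thr t (ν i) z) hg hl (key z hz)
    refine ⟨fun T => h5.2.1 T, fun T' => ?_⟩
    refine le_of_eq ?_
    rw [← h5.2.2.1 T']
    refine Finset.sum_congr rfl fun T _ => ?_
    have h6 : kk (fun i => thc t (ν i) z) (fun i => (l i : ℂ)) (fun i => (g i : ℂ)) T T' =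
        ((kk (fun i => thr t (ν i) z) l g T T' : ℝ) : ℂ) := by
      rw [← KM_kk_cast]
      congr 1
      funext i
      exact ((h1 (ν i) t ht).1 z hz).1
    change muT g T * ph (fun i => ome t (ν i) z) l g T *
      ‖kk (fun i => thc t (ν i) z) (fun i => (l i : ℂ)) (fun i => (g i : ℂ)) T T'‖ = _
    rw [h6, Complex.norm_real, Real.norm_eq_abs, abs_of_nonneg (h5.1 T T')]
    rfl
  · intro T
    have e1 : ∀ θ : ℝ, Real.log (ph (fun i => ome t (ν i) (psi (Real.exp (-t)) (circleMap 0 1 θ))) l g T)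
        = ∑ i ∈ T, Real.log (1 + l i * ome t (ν i) (psi (Real.exp (-t)) (circleMap 0 1 θ))) -
          ∑ i, Real.log (1 + l i * ome t (ν i) (psi (Real.exp (-t)) (circleMap 0 1 θ)) * g i) := by
      intro θ
      refine KM_log_ph _ l g hl hg (home _ (KM_psi_norm hs1 hs0 ?_)) T
      simp
    have a1 : ∀ i, CircleIntegrable (fun w => Real.log (1 + l i * ome t (ν i) (psi (Real.exp (-t)) w))) 0 1 :=
      fun i => ((h1 (ν i) t ht).2.2.2.2.2.2 (l i) (g i) (hl i) (hg i).1 (hg i).2).1
    have a2 : ∀ i, (l i - l i ^ 2) * Wv t (ν i) ≤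
        Real.circleAverage (fun w => Real.log (1 + l i * ome t (ν i) (psi (Real.exp (-t)) w))) 0 1 :=
      fun i => ((h1 (ν i) t ht).2.2.2.2.2.2 (l i) (g i) (hl i) (hg i).1 (hg i).2).2.1
    have a3 : ∀ i, CircleIntegrable
        (fun w => Real.log (1 + l i * ome t (ν i) (psi (Real.exp (-t)) w) * g i)) 0 1 :=
      fun i => ((h1 (ν i) t ht).2.2.2.2.2.2 (l i) (g i) (hl i) (hg i).1 (hg i).2).2.2.1
    have a4 : ∀ i, Real.circleAverage
        (fun w => Real.log (1 + l i * ome t (ν i) (psi (Real.exp (-t)) w) * g i)) 0 1 ≤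
          l i * g i * Wv t (ν i) :=
      fun i => ((h1 (ν i) t ht).2.2.2.2.2.2 (l i) (g i) (hl i) (hg i).1 (hg i).2).2.2.2
    have b1 : IntervalIntegrable (fun θ : ℝ => ∑ i ∈ T, Real.log (1 + l i *
        ome t (ν i) (psi (Real.exp (-t)) (circleMap 0 1 θ)))) MeasureTheory.volume 0 (2 * Real.pi) := by
      have e : (fun θ : ℝ => ∑ i ∈ T, Real.log (1 + l i *
          ome t (ν i) (psi (Real.exp (-t)) (circleMap 0 1 θ)))) = ∑ i ∈ T, fun θ : ℝ =>
            Real.log (1 + l i * ome t (ν i) (psi (Real.exp (-t)) (circleMap 0 1 θ))) := by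
        funext θ
        rw [Finset.sum_apply]
      rw [e]
      exact IntervalIntegrable.sum T fun i _ => a1 i
    have b2 : IntervalIntegrable (fun θ : ℝ => ∑ i, Real.log (1 + l i *
        ome t (ν i) (psi (Real.exp (-t)) (circleMap 0 1 θ)) * g i)) MeasureTheory.volume 0
          (2 * Real.pi) := by
      have e : (fun θ : ℝ => ∑ i, Real.log (1 + l i *
          ome t (ν i) (psi (Real.exp (-t)) (circleMap 0 1 θ)) * g i)) = ∑ i, fun θ : ℝ =>
            Real.log (1 + l i * ome t (ν i) (psi (Real.exp (-t)) (circleMap 0 1 θ)) * g i) := by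
        funext θ
        rw [Finset.sum_apply]
      rw [e]
      exact IntervalIntegrable.sum univ fun i _ => a3 i
    have hfun : (fun θ : ℝ => Real.log (ph (fun i => ome t (ν i)
        (psi (Real.exp (-t)) (circleMap 0 1 θ))) l g T)) =
        fun θ : ℝ => ∑ i ∈ T, Real.log (1 + l i * ome t (ν i) (psi (Real.exp (-t)) (circleMap 0 1 θ))) -
          ∑ i, Real.log (1 + l i * ome t (ν i) (psi (Real.exp (-t)) (circleMap 0 1 θ)) * g i) :=
      funext e1
    constructor
    · change IntervalIntegrable (fun θ : ℝ => Real.log (ph (fun i => ome t (ν i)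
        (psi (Real.exp (-t)) (circleMap 0 1 θ))) l g T)) MeasureTheory.volume 0 (2 * Real.pi)
      rw [hfun]
      exact b1.sub b2
    · have c1 : Real.circleAverage (fun w => Real.log (ph (fun i => ome t (ν i)
          (psi (Real.exp (-t)) w)) l g T)) 0 1 =
          ∑ i ∈ T, Real.circleAverage (fun w => Real.log (1 + l i *
            ome t (ν i) (psi (Real.exp (-t)) w))) 0 1 -
          ∑ i, Real.circleAverage (fun w => Real.log (1 + l i *
            ome t (ν i) (psi (Real.exp (-t)) w) * g i)) 0 1 := by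
        unfold Real.circleAverage
        rw [hfun, intervalIntegral.integral_sub b1 b2, intervalIntegral.integral_finsetSum,
          intervalIntegral.integral_finsetSum, smul_sub, Finset.smul_sum, Finset.smul_sum]
        · exact fun i _ => a3 i
        · exact fun i _ => a1 i
      change _ ≤ Real.circleAverage (fun w => Real.log (ph (fun i => ome t (ν i)
          (psi (Real.exp (-t)) w)) l g T)) 0 1
      rw [c1]
      exact sub_le_sub (Finset.sum_le_sum fun i _ => a2 i) (Finset.sum_le_sum fun i _ => a4 i)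

end Pool.Agent.N422.WS
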