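import Pool.Agent.N422.WS.Stm
import Pool.Agent.N422.SL.UBM

/-! Project WS (helper422), part KP (helper645): the kernel gives polynomials. -/

set_option autoImplicit false

open Finset

namespace Pool.Agent.N422.WS

open Pool.Agent.N422.NW Pool.Agent.N422.SL

/-- the local weights sum to one -/
theorem KP_k1 (th l g : ℂ) (a b : Bool) :
    k1 th l g a b = if b = true then k1 th l g a true else 1 - k1 th l g a true := by
  cases a <;> cases b <;> simp [k1] <;> ring

/-- the kernel is a product law -/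
theorem KP_kk {N : ℕ} (th l g : Fin N → ℂ) (T T' : Finset (Fin N)) :
    kk th l g T T' = ∏ i, (if i ∈ T' then k1 (th i) (l i) (g i) (decide (i ∈ T)) true
      else 1 - k1 (th i) (l i) (g i) (decide (i ∈ T)) true) := by
  unfold kk
  refine prod_congr rfl fun i _ => ?_
  rw [KP_k1]
  simp only [decide_eq_true_eq]

/-- **The kernel gives polynomials.** -/
theorem t_KP (hW : S_W) : S_KP := by
  intro N n g l ν f t ht hf T
  obtain ⟨m, S, h, hS, hh, hfh⟩ := hf
  have hP0 : ∀ i, ∃ P : Polynomial ℂ, ∀ z : ℂ, z ≠ 0 → P.eval z = z ^ (ν i) * thc t (ν i) z :=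
    fun i => (hW (ν i) t ht).2.2.1
  choose P hP using hP0
  obtain ⟨a, ha⟩ : ∃ a : ℂ → Fin N → ℂ, a = fun z i =>
    k1 (thc t (ν i) z) (l i : ℂ) (g i : ℂ) (decide (i ∈ T)) true := ⟨_, rfl⟩
  obtain ⟨A, hA⟩ : ∃ A : Fin N → Polynomial ℂ, A = fun i => if i ∈ T then
    Polynomial.X ^ (ν i) - Polynomial.C (1 - (g i : ℂ)) * P i else
    Polynomial.C ((1 - (l i : ℂ)) * (g i : ℂ)) * P i := ⟨_, rfl⟩
  have hAe : ∀ (z : ℂ), z ≠ 0 → ∀ i, (A i).eval z = z ^ (ν i) * a z i := by
    intro z hz i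
    rw [hA, ha]
    simp only
    by_cases hi : i ∈ T
    · rw [if_pos hi]
      simp only [hi, decide_true, k1, Polynomial.eval_sub, Polynomial.eval_mul, Polynomial.eval_pow,
        Polynomial.eval_X, Polynomial.eval_C, hP i z hz, if_true]
      ring
    · rw [if_neg hi]
      simp only [hi, decide_false, k1, Polynomial.eval_mul, Polynomial.eval_C, hP i z hz, if_true,
        Bool.false_eq_true, if_false]
      ring
  refine ⟨∑ x, Polynomial.X ^ (n - ∑ i ∈ S x, ν i) * ∑ T' ∈ (S x).powerset,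
    (∏ i ∈ S x, (if i ∈ T' then A i else Polynomial.X ^ (ν i) - A i)) *
      Polynomial.C (h x T' : ℂ), ?_⟩
  intro z hz
  have e1 : ∀ T', ((f T' : ℝ) : ℂ) = ∑ x, (h x T' : ℂ) := by
    intro T'
    rw [hfh T']
    push_cast
    rfl
  rw [Polynomial.eval_finsetSum]
  simp only [e1, mul_sum]
  rw [sum_comm]
  refine sum_congr rfl fun x _ => ?_
  have e2 := UBM_marg (a z) (S x) (h x) (hh x)
  have e4 : ∑ T', z ^ n * (kk (fun i => thc t (ν i) z) (fun i => (l i : ℂ)) (fun i => (g i : ℂ)) T T' *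
      (h x T' : ℂ)) = z ^ n * ∑ T', (∏ i, (if i ∈ T' then a z i else 1 - a z i)) * (h x T' : ℂ) := by
    rw [mul_sum]
    refine sum_congr rfl fun T' _ => ?_
    rw [KP_kk, ha]
  rw [e4, e2, ← mul_sum, Polynomial.eval_mul, Polynomial.eval_pow, Polynomial.eval_X,
    Polynomial.eval_finsetSum, mul_sum, mul_sum]
  refine sum_congr rfl fun T' _ => ?_
  have e3 : (∏ i ∈ S x, (if i ∈ T' then A i else Polynomial.X ^ (ν i) - A i)).eval z =
      z ^ (∑ i ∈ S x, ν i) * ∏ i ∈ S x, (if i ∈ T' then a z i else 1 - a z i) := by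
    rw [← prod_pow_eq_pow_sum, ← prod_mul_distrib, Polynomial.eval_prod]
    refine prod_congr rfl fun i _ => ?_
    split_ifs
    · rw [hAe z hz]
    · rw [Polynomial.eval_sub, Polynomial.eval_pow, Polynomial.eval_X, hAe z hz]
      ring
  rw [Polynomial.eval_mul, Polynomial.eval_C, e3, ← mul_assoc, ← mul_assoc, ← mul_assoc, ← pow_add,
    Nat.sub_add_cancel (hS x)]

end Pool.Agent.N422.WS
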