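import Pool.Agent.N422.WS.Stm
import Pool.Agent.N422.SL.AB
import Pool.Agent.N422.NW.MER

/-! Project WS: sums of `ν(p) / p` over the primes in `(Q^a, Q^b]` (WS/MER). Author: helper427. -/

set_option autoImplicit false

open Finset Filter Topology

namespace Pool.Agent.N422.WS

open Pool.Agent.N422.NW Pool.Agent.N422.SL

theorem MER_sumPW {Q : ℕ} {a b : ℝ} (hQ : 1 ≤ Q) (hab : a < b) (hb : b ≤ 1) :
    ∑ p ∈ PW Q a b, 1 / (p : ℝ) = MER_L ⌊(Q : ℝ) ^ b⌋₊ - MER_L ⌊(Q : ℝ) ^ a⌋₊ := by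
  have hQ1 : (1 : ℝ) ≤ Q := by exact_mod_cast hQ
  have hQ0 : (0 : ℝ) < Q := by linarith
  have hfl : ∀ (p : ℕ) (c : ℝ), p ≤ ⌊(Q : ℝ) ^ c⌋₊ ↔ (p : ℝ) ≤ (Q : ℝ) ^ c := fun p c =>
    Nat.le_floor_iff (by positivity)
  have hsub : (Icc 1 ⌊(Q : ℝ) ^ a⌋₊).filter Nat.Prime ⊆
      (Icc 1 ⌊(Q : ℝ) ^ b⌋₊).filter Nat.Prime := by
    apply filter_subset_filter
    apply Icc_subset_Icc_right
    apply Nat.floor_mono
    exact Real.rpow_le_rpow_of_exponent_le hQ1 hab.le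
  have heq : PW Q a b = (Icc 1 ⌊(Q : ℝ) ^ b⌋₊).filter Nat.Prime \
      (Icc 1 ⌊(Q : ℝ) ^ a⌋₊).filter Nat.Prime := by
    ext p
    rw [PW, Finset.mem_filter, Finset.mem_sdiff, Finset.mem_filter,
      Finset.mem_filter, Finset.mem_Icc, Finset.mem_Icc, Finset.mem_Icc, hfl, hfl]
    constructor
    · rintro ⟨⟨h1, h2⟩, h3, h4, h5⟩
      refine ⟨⟨⟨h1, h5⟩, h3⟩, ?_⟩
      rintro ⟨⟨-, h6⟩, -⟩
      exact absurd h6 (not_le.2 h4)
    · rintro ⟨⟨⟨h1, h2⟩, h3⟩, h4⟩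
      refine ⟨⟨h1, ?_⟩, h3, ?_, h2⟩
      · have h6 : (p : ℝ) ≤ (Q : ℝ) ^ (1 : ℝ) :=
          h2.trans (Real.rpow_le_rpow_of_exponent_le hQ1 hb)
        rw [Real.rpow_one] at h6
        exact_mod_cast h6
      · by_contra h6
        exact h4 ⟨⟨h1, not_lt.1 h6⟩, h3⟩
  rw [heq, MER_L, MER_L, eq_sub_iff_add_eq, sum_sdiff hsub]

/-- the primes dividing one of the differences -/
theorem MER_bad3 {Q k : ℕ} {a b B : ℝ} (hQ : 2 ≤ Q) (ha : 0 < a) {H : Finset ℕ}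
    (hH : H.card = k) (hHB : ∀ h ∈ H, (h : ℝ) ≤ (Q : ℝ) ^ B) : ∃ Bd ⊆ PW Q a b,
    (∀ p ∈ PW Q a b, p ∉ Bd → (SL.om H p).card = k) ∧
    ∑ p ∈ Bd, 1 / (p : ℝ) ≤ (k : ℝ) ^ 2 * max B 0 / a * Real.exp (-(a * Real.log Q)) := by
  classical
  have hQr : (0 : ℝ) < Q := by exact_mod_cast (by omega : 0 < Q)
  have hlogQ0 : 0 < Real.log (Q : ℝ) := Real.log_pos (by exact_mod_cast (by omega : 1 < Q))
  obtain ⟨D, hD⟩ : ∃ D, D = ∏ z ∈ (H ×ˢ H).filter (fun z => z.1 < z.2), (z.2 - z.1) := ⟨_, rfl⟩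
  have hD0 : 0 < D := by
    rw [hD]
    refine prod_pos fun z hz => ?_
    rw [mem_filter] at hz
    omega
  have hlD : Real.log D ≤ (k : ℝ) ^ 2 * max B 0 * Real.log Q := by
    rw [hD]
    push_cast
    rw [Real.log_prod (by
      intro z hz
      rw [mem_filter] at hz
      have : 0 < z.2 - z.1 := by omega
      exact_mod_cast this.ne')]
    have hmB : 0 ≤ max B 0 * Real.log Q := mul_nonneg (le_max_right _ _) hlogQ0.le
    have h1 : ∀ z ∈ (H ×ˢ H).filter (fun z => z.1 < z.2),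
        Real.log ((z.2 - z.1 : ℕ) : ℝ) ≤ max B 0 * Real.log Q := by
      intro z hz
      rw [mem_filter, mem_product] at hz
      have h2 := hHB z.2 hz.1.2
      have h5 : ((z.2 - z.1 : ℕ) : ℝ) ≤ (Q : ℝ) ^ B := by
        have : ((z.2 - z.1 : ℕ) : ℝ) ≤ z.2 := by exact_mod_cast Nat.sub_le _ _
        linarith
      have h6 : Real.log ((z.2 - z.1 : ℕ) : ℝ) ≤ B * Real.log Q := by
        rw [← Real.log_rpow hQr]
        apply Real.log_le_log _ h5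
        exact_mod_cast (by omega : 0 < z.2 - z.1)
      exact h6.trans (mul_le_mul_of_nonneg_right (le_max_left _ _) hlogQ0.le)
    refine (sum_le_sum h1).trans ?_
    rw [sum_const, nsmul_eq_mul, mul_assoc]
    apply mul_le_mul_of_nonneg_right _ hmB
    have h2 : ((H ×ˢ H).filter (fun z => z.1 < z.2)).card ≤ k ^ 2 := by
      refine (card_filter_le _ _).trans ?_
      rw [card_product, hH, sq]
    exact_mod_cast h2
  have hPW : ∀ p ∈ PW Q a b, p.Prime ∧ 1 ≤ p ∧ (Q : ℝ) ^ a < p := by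
    intro p hp
    rw [PW, mem_filter, mem_Icc] at hp
    exact ⟨hp.2.1, hp.1.1, hp.2.2.1⟩
  refine ⟨(PW Q a b).filter (fun p => p ∣ D), filter_subset _ _, ?_, ?_⟩
  · intro p hp hpB
    have h := hPW p hp
    rw [← hH]
    apply AB_om_eq h.2.1
    intro x hx y hy hxy hdvd
    apply hpB
    rw [mem_filter]
    refine ⟨hp, hdvd.trans ?_⟩
    rw [hD]
    exact dvd_prod_of_mem (fun z : ℕ × ℕ => z.2 - z.1)
      (mem_filter.2 ⟨mem_product.2 ⟨hx, hy⟩, hxy⟩ : (x, y) ∈ _)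
  · set R := (PW Q a b).filter (fun p => p ∣ D) with hR
    have hR' : ∀ p ∈ R, p.Prime ∧ p ∣ D := fun p hp => by
      rw [hR, mem_filter] at hp
      exact ⟨(hPW p hp.1).1, hp.2⟩
    have hlog : ∀ p ∈ R, a * Real.log Q ≤ Real.log p := by
      intro p hp
      rw [hR, mem_filter] at hp
      rw [← Real.log_rpow hQr]
      exact Real.log_le_log (Real.rpow_pos_of_pos hQr _) (hPW p hp.1).2.2.le
    have hcard : (R.card : ℝ) ≤ (k : ℝ) ^ 2 * max B 0 / a := by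
      have h1 : (R.card : ℝ) * (a * Real.log Q) ≤ ∑ p ∈ R, Real.log p := by
        rw [← nsmul_eq_mul]
        exact card_nsmul_le_sum _ _ _ hlog
      have h2 := AB_lg hD0 hR'
      rw [le_div_iff₀ ha]
      refine le_of_mul_le_mul_right ?_ hlogQ0
      calc (R.card : ℝ) * a * Real.log Q = (R.card : ℝ) * (a * Real.log Q) := by ring
        _ ≤ _ := h1
        _ ≤ _ := h2
        _ ≤ _ := hlD
    calc ∑ p ∈ R, 1 / (p : ℝ) ≤ ∑ p ∈ R, Real.exp (-(a * Real.log Q)) := by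
          refine sum_le_sum fun p hp => ?_
          have hp0 : (0 : ℝ) < p := by exact_mod_cast (hR' p hp).1.pos
          have h1 : 1 / (p : ℝ) = Real.exp (-Real.log p) := by
            rw [Real.exp_neg, Real.exp_log hp0, one_div]
          rw [h1]
          exact Real.exp_le_exp.2 (neg_le_neg (hlog p hp))
      _ = (R.card : ℝ) * Real.exp (-(a * Real.log Q)) := by
          rw [sum_const, nsmul_eq_mul]
      _ ≤ _ := mul_le_mul_of_nonneg_right hcard (Real.exp_pos _).le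

theorem t_MER3 : S_MER3 := by
  intro k a b B δ hk ha hab hb hδ
  have hk0 : (0 : ℝ) < k := by exact_mod_cast hk
  have hlog : Tendsto (fun Q : ℕ => Real.log (Q : ℝ)) atTop atTop :=
    Real.tendsto_log_atTop.comp tendsto_natCast_atTop_atTop
  have h1 : ∀ᶠ Q : ℕ in atTop,
      k * ((k : ℝ) ^ 2 * max B 0 / a) * Real.exp (-(a * Real.log Q)) < δ / 2 := by
    have h2 : Tendsto (fun Q : ℕ => a * Real.log Q) atTop atTop := hlog.const_mul_atTop ha
    have h3 := (Real.tendsto_exp_neg_atTop_nhds_zero.comp h2).const_mul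
      (k * ((k : ℝ) ^ 2 * max B 0 / a))
    rw [mul_zero] at h3
    exact h3.eventually_lt_const (by linarith)
  have h2 : ∀ᶠ Q : ℕ in atTop,
      |MER_L ⌊(Q : ℝ) ^ b⌋₊ - MER_L ⌊(Q : ℝ) ^ a⌋₊ - Real.log (b / a)| < δ / (2 * k) := by
    have h3 := (MER_lim ha (ha.trans hab)).sub_const (Real.log (b / a))
    rw [sub_self] at h3
    have h4 := h3.abs
    rw [abs_zero] at h4
    exact h4.eventually_lt_const (by positivity)
  obtain ⟨Q0, hQ0⟩ := Filter.eventually_atTop.1 (h1.and h2)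
  refine ⟨max Q0 2, fun Q hQ H hH hHB => ?_⟩
  obtain ⟨h3, h4⟩ := hQ0 Q ((le_max_left _ _).trans hQ)
  have hQ2 : 2 ≤ Q := (le_max_right _ _).trans hQ
  rw [← MER_sumPW (by omega) hab hb] at h4
  obtain ⟨Bd, hBd, hBk, hBs⟩ := MER_bad3 (b := b) hQ2 ha hH hHB
  have hp1 : ∀ p ∈ PW Q a b, (0 : ℝ) < p ∧ 0 < p := by
    intro p hp
    rw [PW, mem_filter, mem_Icc] at hp
    exact ⟨by exact_mod_cast hp.1.1, hp.1.1⟩
  have hup : ∑ p ∈ PW Q a b, ((SL.om H p).card : ℝ) / p ≤ k * ∑ p ∈ PW Q a b, 1 / (p : ℝ) := by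
    rw [mul_sum]
    refine sum_le_sum fun p hp => ?_
    rw [mul_one_div]
    apply div_le_div_of_nonneg_right _ (hp1 p hp).1.le
    have h6 := AB_om_le H (p := p) (hp1 p hp).2
    rw [hH] at h6
    exact_mod_cast h6
  have hlo : k * ∑ p ∈ PW Q a b, 1 / (p : ℝ) - k * ∑ p ∈ Bd, 1 / (p : ℝ) ≤
      ∑ p ∈ PW Q a b, ((SL.om H p).card : ℝ) / p := by
    have e1 : ∑ p ∈ PW Q a b, 1 / (p : ℝ) =
        ∑ p ∈ PW Q a b \ Bd, 1 / (p : ℝ) + ∑ p ∈ Bd, 1 / (p : ℝ) := (sum_sdiff hBd).symm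
    have e2 : ∑ p ∈ PW Q a b, ((SL.om H p).card : ℝ) / p =
        ∑ p ∈ PW Q a b \ Bd, ((SL.om H p).card : ℝ) / p + ∑ p ∈ Bd, ((SL.om H p).card : ℝ) / p :=
      (sum_sdiff hBd).symm
    have e3 : ∑ p ∈ PW Q a b \ Bd, ((SL.om H p).card : ℝ) / p =
        k * ∑ p ∈ PW Q a b \ Bd, 1 / (p : ℝ) := by
      rw [mul_sum]
      refine sum_congr rfl fun p hp => ?_
      rw [Finset.mem_sdiff] at hp
      rw [hBk p hp.1 hp.2, mul_one_div]
    have e4 : 0 ≤ ∑ p ∈ Bd, ((SL.om H p).card : ℝ) / p :=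
      sum_nonneg fun p _ => by positivity
    rw [e1, e2, e3]
    linarith
  have h5 : k * ∑ p ∈ Bd, 1 / (p : ℝ) ≤ δ / 2 := by
    have := mul_le_mul_of_nonneg_left hBs hk0.le
    rw [← mul_assoc] at this
    linarith
  have h6 : k * |∑ p ∈ PW Q a b, 1 / (p : ℝ) - Real.log (b / a)| ≤ δ / 2 := by
    have := mul_le_mul_of_nonneg_left h4.le hk0.le
    refine this.trans (le_of_eq ?_)
    field_simp
  have h7 : |k * (∑ p ∈ PW Q a b, 1 / (p : ℝ) - Real.log (b / a))| ≤ δ / 2 := by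
    rw [abs_mul, abs_of_pos hk0]
    exact h6
  rw [mul_sub, abs_le] at h7
  rw [abs_le]
  constructor
  · linarith [h7.1]
  · linarith [h7.2]

end Pool.Agent.N422.WS
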