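import Pool.Agent.N422.WS.Stm

/-! Project WS (helper422), leaf MOD (helper273): two consequences in the model. -/

set_option autoImplicit false

open Finset

namespace Pool.Agent.N422.WS

open Pool.Agent.N422.NW Pool.Agent.N422.SL

theorem MOD_muT_nonneg {N : ℕ} {g : Fin N → ℝ} (hg : ∀ i, 0 ≤ g i ∧ g i ≤ 1)
    (T : Finset (Fin N)) : 0 ≤ muT g T := by
  unfold muT
  refine Finset.prod_nonneg fun i _ => ?_
  split_ifs
  · exact (hg i).1
  · have := (hg i).2
    linarith

theorem MOD_swap {N : ℕ} (w : Finset (Fin N) → ℝ) (b : Fin N → ℝ) :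
    ∑ T, w T * ∑ i ∈ T, b i = ∑ i, b i * ∑ T, w T * (if i ∈ T then 1 else 0) := by
  have h1 : ∀ T : Finset (Fin N), w T * ∑ i ∈ T, b i =
      ∑ i, b i * (w T * (if i ∈ T then 1 else 0)) := by
    intro T
    have h2 : ∑ i ∈ T, b i = ∑ i, if i ∈ T then b i else 0 := by
      rw [Finset.sum_ite_mem, Finset.univ_inter]
    rw [h2, Finset.mul_sum]
    refine Finset.sum_congr rfl fun i _ => ?_
    split_ifs <;> ring
  rw [Finset.sum_congr rfl fun T _ => h1 T, Finset.sum_comm]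
  exact Finset.sum_congr rfl fun i _ => (Finset.mul_sum _ _ _).symm

/-- the main estimate for a parameter `x` -/
theorem MOD_core (h1 : S_W) (h2 : S_KM) {N m n : ℕ} {g : Fin N → ℝ} {ν : Fin N → ℕ}
    {f : Finset (Fin N) → ℝ} (hm : 0 < m) (hg : ∀ i, 0 ≤ g i ∧ g i ≤ 1) (hν : ∀ i, m ≤ ν i)
    (hL : LevT ν n f) (hf : ∀ T, 0 ≤ f T) (hE : 0 < ∑ T, muT g T * f T) {x : ℝ} (hx : 0 < x)
    (hx2 : x ≤ 1 / 2) :
    x * ∑ i, |∑ T, muT g T * f T * (if i ∈ T then 1 else 0) - g i * ∑ T, muT g T * f T| ≤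
      10 * (n / m) * (∑ T, muT g T * f T) + 2 * x ^ 2 * (∑ i, g i) * (∑ T, muT g T * f T) := by
  have hm' : (0 : ℝ) < m := by exact_mod_cast hm
  have ht : (0 : ℝ) < 1 / m := by positivity
  obtain ⟨W, hW⟩ : ∃ W : Fin N → ℝ, W = fun i => Wv (1 / m) (ν i) := ⟨_, rfl⟩
  have hW1 : ∀ i, W i ≤ 1 := fun i => by rw [hW]; exact (h1 (ν i) (1 / m) ht).2.2.2.2.1
  have hW5 : ∀ i, 1 / 5 ≤ W i := by
    intro i
    rw [hW]
    refine (h1 (ν i) (1 / m) ht).2.2.2.2.2.1 ?_
    rw [mul_one_div, le_div_iff₀ hm', one_mul]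
    exact_mod_cast hν i
  have hW0 : ∀ i, 0 < W i := fun i => by linarith [hW5 i]
  obtain ⟨E, hEd⟩ : ∃ E : ℝ, E = ∑ T, muT g T * f T := ⟨_, rfl⟩
  obtain ⟨EI, hEI⟩ : ∃ EI : Fin N → ℝ, EI = fun i => ∑ T, muT g T * f T * (if i ∈ T then 1 else 0) :=
    ⟨_, rfl⟩
  have hEI0 : ∀ i, 0 ≤ EI i := by
    intro i
    rw [hEI]
    refine Finset.sum_nonneg fun T _ => mul_nonneg (mul_nonneg (MOD_muT_nonneg hg T) (hf T)) ?_
    split_ifs <;> norm_num
  obtain ⟨σ, hσ⟩ : ∃ σ : Fin N → ℝ, σ = fun i => if 0 ≤ EI i - g i * E then (1 : ℝ) else -1 :=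
    ⟨_, rfl⟩
  have hσ2 : ∀ i, σ i ^ 2 = 1 := by
    intro i
    rw [hσ]
    simp only
    split_ifs <;> norm_num
  have hσa : ∀ i, |σ i| = 1 := by
    intro i
    rw [hσ]
    simp only
    split_ifs <;> norm_num
  have hσD : ∀ i, σ i * (EI i - g i * E) = |EI i - g i * E| := by
    intro i
    rw [hσ]
    simp only
    split_ifs with h
    · rw [one_mul, abs_of_nonneg h]
    · rw [abs_of_neg (not_le.1 h)]
      ring
  obtain ⟨l, hl⟩ : ∃ l : Fin N → ℝ, l = fun i => x * σ i / (5 * W i) := ⟨_, rfl⟩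
  have hlW : ∀ i, l i * W i = x / 5 * σ i := by
    intro i
    rw [hl]
    have := (hW0 i).ne'
    simp only
    field_simp
  have hl2W : ∀ i, l i ^ 2 * W i ≤ x ^ 2 / 5 := by
    intro i
    have h3 : l i ^ 2 * W i = x ^ 2 / 25 * (σ i ^ 2) / W i := by
      rw [hl]
      have := (hW0 i).ne'
      simp only
      field_simp
      ring
    rw [h3, hσ2, mul_one, div_le_iff₀ (hW0 i)]
    have h4 := hW5 i
    nlinarith [sq_nonneg x]
  have hla : ∀ i, |l i| ≤ 1 / 2 := by
    intro i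
    have h3 : |l i| = x / (5 * W i) := by
      rw [hl]
      simp only
      rw [abs_div, abs_mul, hσa, abs_of_pos hx, abs_of_pos (by linarith [hW0 i]), mul_one]
    rw [h3, div_le_iff₀ (by linarith [hW0 i])]
    nlinarith [hW5 i]
  have hmax : ∀ T, max (f T) 0 = f T := fun T => max_eq_left (hf T)
  have habs : ∀ T, |f T| = f T := fun T => abs_of_nonneg (hf T)
  have h3 := h2 N n g l ν f (1 / m) ht hg hla hL (by simp only [hmax]; exact hE)
  simp only [hmax, habs] at h3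
  rw [div_self hE.ne', Real.log_one, add_zero, ← hEd] at h3
  have h4 : ∑ T, muT g T * f T * (∑ i ∈ T, (l i - l i ^ 2) * Wv (1 / m) (ν i) -
      ∑ i, l i * g i * Wv (1 / m) (ν i)) =
      ∑ i, ((l i - l i ^ 2) * W i * EI i - l i * g i * W i * E) := by
    have e1 : ∀ T : Finset (Fin N), muT g T * f T * (∑ i ∈ T, (l i - l i ^ 2) * Wv (1 / m) (ν i) -
        ∑ i, l i * g i * Wv (1 / m) (ν i)) =
        muT g T * f T * (∑ i ∈ T, (l i - l i ^ 2) * W i) -
          (∑ i, l i * g i * W i) * (muT g T * f T) := by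
      intro T
      rw [hW]
      ring
    rw [Finset.sum_congr rfl fun T _ => e1 T, Finset.sum_sub_distrib, MOD_swap, ← Finset.mul_sum,
      ← hEd, Finset.sum_sub_distrib, Finset.sum_mul, hEI]
  rw [h4] at h3
  have h5 : ∀ i, x / 5 * |EI i - g i * E| - x ^ 2 / 5 * (|EI i - g i * E| + g i * E) ≤
      (l i - l i ^ 2) * W i * EI i - l i * g i * W i * E := by
    intro i
    have e1 : (l i - l i ^ 2) * W i * EI i - l i * g i * W i * E =
        x / 5 * |EI i - g i * E| - l i ^ 2 * W i * EI i := by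
      rw [← hσD]
      linear_combination (EI i - g i * E) * hlW i
    rw [e1]
    have e2 : l i ^ 2 * W i * EI i ≤ x ^ 2 / 5 * EI i := mul_le_mul_of_nonneg_right (hl2W i) (hEI0 i)
    have e3 : EI i ≤ |EI i - g i * E| + g i * E := by
      have := le_abs_self (EI i - g i * E)
      linarith
    have e4 : x ^ 2 / 5 * EI i ≤ x ^ 2 / 5 * (|EI i - g i * E| + g i * E) :=
      mul_le_mul_of_nonneg_left e3 (by positivity)
    linarith
  have h6 := (Finset.sum_le_sum fun i (_ : i ∈ (univ : Finset (Fin N))) => h5 i).trans h3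
  rw [Finset.sum_sub_distrib, ← Finset.mul_sum, ← Finset.mul_sum, Finset.sum_add_distrib,
    ← Finset.sum_mul] at h6
  rw [← hEd]
  have h7 : ∀ i, ∑ T, muT g T * f T * (if i ∈ T then (1 : ℝ) else 0) = EI i := by
    intro i; rw [hEI]
  simp only [h7]
  obtain ⟨S, hS⟩ : ∃ S : ℝ, S = ∑ i, |EI i - g i * E| := ⟨_, rfl⟩
  have hS0 : 0 ≤ S := by rw [hS]; exact Finset.sum_nonneg fun i _ => abs_nonneg _
  rw [← hS] at h6 ⊢
  have h8 : x ^ 2 * S ≤ x / 2 * S := by
    refine mul_le_mul_of_nonneg_right ?_ hS0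
    nlinarith
  have h9 : (n : ℝ) * (1 / m) = n / m := by ring
  rw [h9] at h6
  nlinarith [h6, h8]

theorem t_MOD1 (h1 : S_W) (h2 : S_KM) : S_MOD1 := by
  intro N m n g ν f hm hn hg hν hL hf
  have hm' : (0 : ℝ) < m := by exact_mod_cast hm
  have hn' : (0 : ℝ) < n := by exact_mod_cast hn
  have hnn : ∀ T, 0 ≤ muT g T * f T := fun T => mul_nonneg (MOD_muT_nonneg hg T) (hf T)
  have hE0 : 0 ≤ ∑ T, muT g T * f T := Finset.sum_nonneg fun T _ => hnn T
  rcases hE0.eq_or_lt with hE | hE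
  · have h3 : ∀ T ∈ (univ : Finset (Finset (Fin N))), muT g T * f T = 0 :=
      (Finset.sum_eq_zero_iff_of_nonneg fun T _ => hnn T).1 hE.symm
    rw [← hE]
    have h4 : ∀ i, ∑ T, muT g T * f T * (if i ∈ T then (1 : ℝ) else 0) = 0 := by
      intro i
      refine Finset.sum_eq_zero fun T hT => ?_
      rw [h3 T hT, zero_mul]
    rw [mul_zero]
    refine le_of_eq (Finset.sum_eq_zero fun i _ => ?_)
    rw [h4 i, mul_zero, sub_zero, abs_zero]
  · have hcore := fun {x : ℝ} (hx : 0 < x) (hx2 : x ≤ 1 / 2) =>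
      MOD_core h1 h2 hm hg hν hL hf hE hx hx2
    obtain ⟨A, hA⟩ : ∃ A : ℝ, A = n / m := ⟨_, rfl⟩
    have hA0 : 0 < A := by rw [hA]; positivity
    have hG0 : 0 ≤ ∑ i, g i := Finset.sum_nonneg fun i _ => (hg i).1
    rw [← hA] at hcore ⊢
    generalize ∑ T, muT g T * f T = E at *
    generalize ∑ i, |∑ T, muT g T * f T * (if i ∈ T then 1 else 0) - g i * E| = S at *
    generalize ∑ i, g i = G at *
    have hq0 : 0 ≤ Real.sqrt (G * A) := Real.sqrt_nonneg _
    by_cases hAG : A ≤ G / 4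
    · have hG : 0 < G := by linarith
      obtain ⟨x, hxd⟩ : ∃ x : ℝ, x = Real.sqrt (A / G) := ⟨_, rfl⟩
      have hx : 0 < x := by rw [hxd]; exact Real.sqrt_pos.2 (by positivity)
      have hxx : x ^ 2 = A / G := by rw [hxd]; exact Real.sq_sqrt (by positivity)
      have hx2 : x ≤ 1 / 2 := by
        rw [hxd, Real.sqrt_le_left (by norm_num), div_le_iff₀ hG]
        linarith
      have h3 := hcore hx hx2
      have h4 : x ^ 2 * G = A := by rw [hxx]; field_simp
      have h5 : x * Real.sqrt (G * A) = A := by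
        rw [hxd, ← Real.sqrt_mul (by positivity)]
        have : A / G * (G * A) = A ^ 2 := by field_simp
        rw [this, Real.sqrt_sq hA0.le]
      have h6 : x * S ≤ x * (12 * Real.sqrt (G * A) * E) := by
        calc x * S ≤ 10 * A * E + 2 * x ^ 2 * G * E := h3
          _ = 12 * (x * Real.sqrt (G * A)) * E := by
            rw [h5]
            linear_combination (2 * E) * h4
          _ = x * (12 * Real.sqrt (G * A) * E) := by ring
      have h7 := le_of_mul_le_mul_left h6 hx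
      have h8 : 0 ≤ 24 * A * E := by positivity
      nlinarith
    · have h3 := hcore (x := 1 / 2) (by norm_num) le_rfl
      have h4 : G * E ≤ 4 * A * E := mul_le_mul_of_nonneg_right (by linarith) hE.le
      have h5 : 0 ≤ 12 * Real.sqrt (G * A) * E := by positivity
      nlinarith

theorem t_MOD2 (h1 : S_W) (h2 : S_KM) : S_MOD2 := by
  intro N m n g ν f r hm hg hν hL hrG hD2 hfr
  by_contra hE
  rw [not_le] at hE
  have hm' : (0 : ℝ) < m := by exact_mod_cast hm
  have hμ := MOD_muT_nonneg hg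
  have hr : 0 ≤ r := by
    by_contra hr
    rw [not_le] at hr
    have h3 : ∑ T, muT g T * f T ≤ 0 := by
      refine Finset.sum_nonpos fun T _ => mul_nonpos_of_nonneg_of_nonpos (hμ T) (hfr T ?_)
      have : (0 : ℝ) ≤ T.card := by positivity
      linarith
    linarith
  have hG0 : 0 ≤ ∑ i, g i := Finset.sum_nonneg fun i _ => (hg i).1
  obtain ⟨G, hGd⟩ : ∃ G : ℝ, G = ∑ i, g i := ⟨_, rfl⟩
  rw [← hGd] at hrG hD2 hG0
  obtain ⟨A, hA⟩ : ∃ A : ℝ, A = n / m := ⟨_, rfl⟩
  have hA0 : 0 ≤ A := by rw [hA]; positivity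
  rw [← hA] at hD2
  obtain ⟨D, hDd⟩ : ∃ D : ℝ, D = G - r := ⟨_, rfl⟩
  rw [← hDd] at hD2
  have hD0 : 0 < D := by
    have h3 : 0 ≤ D := by rw [hDd]; linarith
    rcases h3.eq_or_lt with h4 | h4
    · exfalso
      rw [← h4] at hD2
      have : 0 ≤ 20 * G * (A + 1) := by positivity
      nlinarith
    · exact h4
  have hG : 0 < G := by linarith
  obtain ⟨x, hxd⟩ : ∃ x : ℝ, x = D / (2 * G) := ⟨_, rfl⟩
  have hx : 0 < x := by rw [hxd]; positivity
  have hxG : x * (2 * G) = D := by rw [hxd]; field_simp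
  have hx2 : x ≤ 1 / 2 := by
    rw [hxd, div_le_iff₀ (by positivity)]
    linarith
  have ht : (0 : ℝ) < 1 / m := by positivity
  obtain ⟨W, hW⟩ : ∃ W : Fin N → ℝ, W = fun i => Wv (1 / m) (ν i) := ⟨_, rfl⟩
  have hW5 : ∀ i, 1 / 5 ≤ W i := by
    intro i
    rw [hW]
    refine (h1 (ν i) (1 / m) ht).2.2.2.2.2.1 ?_
    rw [mul_one_div, le_div_iff₀ hm', one_mul]
    exact_mod_cast hν i
  have hW0 : ∀ i, 0 < W i := fun i => by linarith [hW5 i]
  obtain ⟨l, hl⟩ : ∃ l : Fin N → ℝ, l = fun i => -x / (5 * W i) := ⟨_, rfl⟩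
  have hlW : ∀ i, l i * W i = -(x / 5) := by
    intro i
    rw [hl]
    have := (hW0 i).ne'
    simp only
    field_simp
  have hl2W : ∀ i, l i ^ 2 * W i ≤ x ^ 2 / 5 := by
    intro i
    have h3 : l i ^ 2 * W i = x ^ 2 / 25 / W i := by
      rw [hl]
      have := (hW0 i).ne'
      simp only
      field_simp
      ring
    rw [h3, div_le_iff₀ (hW0 i)]
    have h4 := hW5 i
    nlinarith [sq_nonneg x]
  have hla : ∀ i, |l i| ≤ 1 / 2 := by
    intro i
    have h3 : |l i| = x / (5 * W i) := by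
      rw [hl]
      simp only
      rw [abs_div, abs_neg, abs_of_pos hx, abs_of_pos (by linarith [hW0 i])]
    rw [h3, div_le_iff₀ (by linarith [hW0 i])]
    nlinarith [hW5 i]
  obtain ⟨M, hM⟩ : ∃ M : ℝ, M = ∑ T, muT g T * max (f T) 0 := ⟨_, rfl⟩
  obtain ⟨E, hEd⟩ : ∃ E : ℝ, E = ∑ T, muT g T * f T := ⟨_, rfl⟩
  rw [← hEd] at hE
  have hME : E ≤ M := by
    rw [hM, hEd]
    exact Finset.sum_le_sum fun T _ => mul_le_mul_of_nonneg_left (le_max_left _ _) (hμ T)
  have hM0 : 0 < M := lt_of_lt_of_le hE hME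
  have habs : ∑ T, muT g T * |f T| = 2 * M - E := by
    rw [hM, hEd, Finset.mul_sum, ← Finset.sum_sub_distrib]
    refine Finset.sum_congr rfl fun T _ => ?_
    rcases le_total (f T) 0 with h | h
    · rw [abs_of_nonpos h, max_eq_right h]; ring
    · rw [abs_of_nonneg h, max_eq_left h]; ring
  have h3 := h2 N n g l ν f (1 / m) ht hg hla hL (by rw [← hM]; exact hM0)
  rw [← hM, habs] at h3
  have hlog : Real.log ((2 * M - E) / M) ≤ 1 := by
    have h4 : 0 < (2 * M - E) / M := by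
      refine div_pos ?_ hM0
      linarith
    refine (Real.log_le_sub_one_of_pos h4).trans ?_
    have h5 : (2 * M - E) / M ≤ 2 := by
      rw [div_le_iff₀ hM0]
      linarith
    linarith
  have h4 : (n * (1 / m) + Real.log ((2 * M - E) / M)) * M ≤ (A + 1) * M := by
    refine mul_le_mul_of_nonneg_right ?_ hM0.le
    have h9 : (n : ℝ) * (1 / m) = A := by rw [hA]; ring
    rw [h9]
    linarith
  have h5 : D ^ 2 / (20 * G) * M ≤ ∑ T, muT g T * max (f T) 0 *
      (∑ i ∈ T, (l i - l i ^ 2) * Wv (1 / m) (ν i) - ∑ i, l i * g i * Wv (1 / m) (ν i)) := by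
    rw [hM, Finset.mul_sum]
    refine Finset.sum_le_sum fun T _ => ?_
    by_cases hT : r < (T.card : ℝ)
    · have h6 : max (f T) 0 = 0 := max_eq_right (hfr T hT)
      rw [h6]
      simp
    · rw [not_lt] at hT
      have h6 : 0 ≤ muT g T * max (f T) 0 := mul_nonneg (hμ T) (le_max_right _ _)
      rw [mul_comm (D ^ 2 / (20 * G))]
      refine mul_le_mul_of_nonneg_left ?_ h6
      have h7 : ∑ i ∈ T, (-(x / 5) - x ^ 2 / 5) ≤ ∑ i ∈ T, (l i - l i ^ 2) * Wv (1 / m) (ν i) := by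
        refine Finset.sum_le_sum fun i _ => ?_
        have e1 := hlW i
        have e2 := hl2W i
        rw [hW] at e1 e2
        simp only at e1 e2
        nlinarith
      have h8 : ∑ i, l i * g i * Wv (1 / m) (ν i) = -(x / 5) * G := by
        rw [hGd, Finset.mul_sum]
        refine Finset.sum_congr rfl fun i _ => ?_
        have e1 := hlW i
        rw [hW] at e1
        simp only at e1
        linear_combination (g i) * e1
      rw [Finset.sum_const, nsmul_eq_mul] at h7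
      rw [h8]
      have h9 : D ^ 2 / (20 * G) = x * D / 10 := by
        rw [hxd]; field_simp; ring
      rw [h9]
      have h10 : (T.card : ℝ) * (x / 5 + x ^ 2 / 5) ≤ r * (x / 5 + x ^ 2 / 5) :=
        mul_le_mul_of_nonneg_right hT (by positivity)
      have h11 : x * r ≤ D / 2 := by
        have : x * r ≤ x * G := mul_le_mul_of_nonneg_left hrG hx.le
        linarith
      have h12 : x * (x * r) ≤ x * (D / 2) := mul_le_mul_of_nonneg_left h11 hx.le
      nlinarith
  have h6 : D ^ 2 / (20 * G) * M ≤ (A + 1) * M := h5.trans (h3.trans h4)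
  have h7 := le_of_mul_le_mul_right h6 hM0
  rw [div_le_iff₀ (by positivity)] at h7
  nlinarith

end Pool.Agent.N422.WS
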