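import Pool.Agent.N422.WS.Stm
import Pool.Agent.N422.SL.AB

/-! Project WS: the windows (WS/WIN). Author: helper853. -/

set_option autoImplicit false

open Finset

namespace Pool.Agent.N422.WS

open Pool.Agent.N422.NW Pool.Agent.N422.SL

theorem WIN_real {L G a r δ x : ℝ} (ha : 0 < a) (ha1 : a ≤ 1) (hL : 0 < L)
    (hδ1 : δ ≤ L / 20) (hδ2 : δ ≤ Real.sqrt (L / a) / 2) (hG : |G - L| ≤ δ) (hx0 : 0 ≤ x)
    (hx : x ≤ 2 / a) (hr : r ≤ L - 9 * Real.sqrt (L / a)) :
    r ≤ G ∧ 20 * G * (x + 1) < (G - r) ^ 2 := by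
  rw [abs_le] at hG
  have hs0 : 0 < Real.sqrt (L / a) := Real.sqrt_pos.2 (by positivity)
  have hs2 : Real.sqrt (L / a) ^ 2 = L / a := Real.sq_sqrt (by positivity)
  set s := Real.sqrt (L / a) with hs
  refine ⟨by linarith [hG.1], ?_⟩
  have h1 : 17 / 2 * s ≤ G - r := by linarith [hG.1]
  have h2 : (17 / 2 * s) ^ 2 ≤ (G - r) ^ 2 := pow_le_pow_left₀ (by positivity) h1 2
  have h3 : x + 1 ≤ 3 / a := by
    have : 1 ≤ 1 / a := by rw [le_div_iff₀ ha]; linarith
    have e : 3 / a = 2 / a + 1 / a := by ring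
    linarith
  have hG1 : G ≤ 21 / 20 * L := by linarith [hG.2]
  have hG0 : 0 ≤ G := by linarith [hG.1]
  have h4 : 20 * G * (x + 1) ≤ 20 * (21 / 20 * L) * (3 / a) := by
    apply mul_le_mul _ h3 (by linarith) (by positivity)
    linarith
  have h5 : 20 * (21 / 20 * L) * (3 / a) = 63 * (L / a) := by ring
  have h6 : 0 < L / a := by positivity
  rw [mul_pow, hs2] at h2
  linarith

theorem WIN_real2 {L G a δ x : ℝ} (hL : 0 < L)
    (hδ1 : δ ≤ L / 20) (hG : |G - L| ≤ δ) (hx0 : 0 ≤ x) (hx : x ≤ 2 / a) :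
    12 * Real.sqrt (G * x) + 24 * x ≤ 48 * (Real.sqrt (L / a) + 1 / a) := by
  rw [abs_le] at hG
  have h1 : G * x ≤ 4 * (L / a) := by
    have hG0 : 0 ≤ G := by linarith [hG.1]
    have : G * x ≤ (2 * L) * (2 / a) :=
      mul_le_mul (by linarith [hG.2]) hx hx0 (by positivity)
    calc G * x ≤ (2 * L) * (2 / a) := this
      _ = 4 * (L / a) := by ring
  have h2 : Real.sqrt (G * x) ≤ 2 * Real.sqrt (L / a) := by
    rw [show (2 : ℝ) * Real.sqrt (L / a) = Real.sqrt (4 * (L / a)) by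
      rw [Real.sqrt_mul (by norm_num), show (4 : ℝ) = 2 ^ 2 by norm_num,
        Real.sqrt_sq (by norm_num)]]
    exact Real.sqrt_le_sqrt h1
  have h3 := Real.sqrt_nonneg (L / a)
  have e : 2 / a = 2 * (1 / a) := by ring
  rw [e] at hx
  linarith

/-- the windows -/
theorem t_WINA (h1 : S_MOD1) (h2 : S_MOD2) (h3 : S_AR3) (h4 : S_MER3) : S_WINA := by
  classical
  intro k a b B hk ha hab hb
  have hkr : (1 : ℝ) ≤ k := by exact_mod_cast hk
  have hk0 : (0 : ℝ) < k := by linarith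
  have ha1 : a ≤ 1 := by linarith
  obtain ⟨L, hLd⟩ : ∃ L : ℝ, L = k * Real.log (b / a) := ⟨_, rfl⟩
  have hL : 0 < L := by
    rw [hLd]
    apply mul_pos hk0
    apply Real.log_pos
    rw [lt_div_iff₀ ha, one_mul]
    exact hab
  -- the parameters
  obtain ⟨n, hn⟩ := exists_nat_ge (2 / a)
  have han : 2 ≤ a * n := by
    rw [div_le_iff₀ ha] at hn
    linarith
  have hnr : (0 : ℝ) < n := lt_of_lt_of_le (by positivity) hn
  have hn0 : 0 < n := by exact_mod_cast hnr
  obtain ⟨m, hmd⟩ : ∃ m : ℕ, m = ⌊a * n⌋₊ := ⟨_, rfl⟩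
  have hm1 : (m : ℝ) ≤ a * n := by rw [hmd]; exact Nat.floor_le (by positivity)
  have hm2 : a * n < m + 1 := by rw [hmd]; exact Nat.lt_floor_add_one _
  have hmr : (1 : ℝ) ≤ m := by
    have : (0 : ℝ) < m := by linarith
    have h5 : 0 < m := by exact_mod_cast this
    exact_mod_cast h5
  have hm0 : 0 < m := by
    have : (0 : ℝ) < m := by linarith
    exact_mod_cast this
  have hnm : (n : ℝ) / m ≤ 2 / a := by
    rw [div_le_div_iff₀ (by linarith) ha]
    nlinarith
  have hnm0 : 0 ≤ (n : ℝ) / m := by positivity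
  obtain ⟨δ, hδd⟩ : ∃ δ : ℝ, δ = min (L / 20) (Real.sqrt (L / a) / 2) := ⟨_, rfl⟩
  have hδ : 0 < δ := by
    rw [hδd]
    apply lt_min
    · positivity
    · have : 0 < Real.sqrt (L / a) := Real.sqrt_pos.2 (by positivity)
      positivity
  have hδ1 : δ ≤ L / 20 := by rw [hδd]; exact min_le_left _ _
  have hδ2 : δ ≤ Real.sqrt (L / a) / 2 := by rw [hδd]; exact min_le_right _ _
  obtain ⟨Q1, hQ1⟩ := h4 k a b B δ hk ha hab hb hδ
  obtain ⟨Q2, hQ2⟩ := (Filter.tendsto_atTop.1 ((tendsto_rpow_atTop ha).comp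
    tendsto_natCast_atTop_atTop) ((k : ℝ) + 1)).exists_forall_of_atTop
  refine ⟨max Q1 (max Q2 2), ?_⟩
  intro Q hQ H hH hHB c
  have hQa : Q1 ≤ Q := (le_max_left _ _).trans hQ
  have hQb : Q2 ≤ Q := (le_max_left _ _).trans ((le_max_right _ _).trans hQ)
  have hQc : 2 ≤ Q := (le_max_right _ _).trans ((le_max_right _ _).trans hQ)
  have hQk : (k : ℝ) + 1 ≤ (Q : ℝ) ^ a := hQ2 Q hQb
  have hQr : (0 : ℝ) < Q := by exact_mod_cast (by omega : 0 < Q)
  have hlQ0 : 0 < Real.log Q := Real.log_pos (by exact_mod_cast (by omega : 1 < Q))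
  have hHne : H.Nonempty := by
    rw [← card_pos]
    omega
  have hPY : ∀ p ∈ PW Q a b, p.Prime ∧ 1 ≤ p ∧ p ≤ Q ∧ (Q : ℝ) ^ a < p ∧ (p : ℝ) ≤ (Q : ℝ) ^ b := by
    intro p hp
    unfold PW at hp
    rw [mem_filter, mem_Icc] at hp
    exact ⟨hp.2.1, hp.1.1, hp.1.2, hp.2.2.1, hp.2.2.2⟩
  have hmean := AB_mean Q c
  have hM0 : 0 < Q.factorial := Nat.factorial_pos Q
  have hMr : (0 : ℝ) < Q.factorial := by exact_mod_cast hM0
  -- the places
  obtain ⟨q, hq⟩ : ∃ q : Fin (PW Q a b).card → ℕ, q = (PW Q a b).orderEmbOfFin rfl := ⟨_, rfl⟩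
  have hqmem : ∀ i, q i ∈ PW Q a b := fun i => by rw [hq]; exact (PW Q a b).orderEmbOfFin_mem rfl i
  have hqmono : StrictMono q := by rw [hq]; exact ((PW Q a b).orderEmbOfFin rfl).strictMono
  have himg : PW Q a b = univ.image q := by
    rw [hq]
    exact (Finset.image_orderEmbOfFin_univ (PW Q a b) rfl).symm
  have hqsum : ∀ (G : ℕ → ℝ), ∑ i, G (q i) = ∑ p ∈ PW Q a b, G p := by
    intro G
    conv_rhs => rw [himg]
    rw [sum_image (fun a _ b _ hab => hqmono.injective hab)]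
  have hOm : ∀ i, SL.om H (q i) ⊆ range (q i) ∧ 0 < (SL.om H (q i)).card ∧
      (SL.om H (q i)).card < q i := by
    intro i
    have hpp := hPY _ (hqmem i)
    refine ⟨AB_om_sub H _, AB_om_pos hHne hpp.2.1, ?_⟩
    have h5 := AB_om_le H (p := q i) hpp.2.1
    rw [hH] at h5
    have h6 : (k : ℝ) < q i := by linarith [hpp.2.2.2.1]
    have h7 : k < q i := by exact_mod_cast h6
    omega
  obtain ⟨ν, hν⟩ : ∃ ν : Fin (PW Q a b).card → ℕ,
      ν = fun i => ⌊(n : ℝ) * Real.log (q i) / Real.log Q⌋₊ := ⟨_, rfl⟩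
  have hνm : ∀ i, m ≤ ν i := by
    intro i
    rw [hν]
    apply Nat.le_floor
    rw [le_div_iff₀ hlQ0]
    have hpp := hPY _ (hqmem i)
    have h5 : a * Real.log Q ≤ Real.log (q i) := by
      rw [← Real.log_rpow hQr]
      exact Real.log_le_log (Real.rpow_pos_of_pos hQr _) hpp.2.2.2.1.le
    calc (m : ℝ) * Real.log Q ≤ (a * n) * Real.log Q := mul_le_mul_of_nonneg_right hm1 hlQ0.le
      _ = n * (a * Real.log Q) := by ring
      _ ≤ n * Real.log (q i) := mul_le_mul_of_nonneg_left h5 hnr.le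
  obtain ⟨f, hf1, hf2, hf3, hf4⟩ := h3 (PW Q a b).card q (fun i => SL.om H (q i)) ν n Q
    Q.factorial (fun d x => c d (x % d)) hqmono.injective (fun i => (hPY _ (hqmem i)).1) hOm hM0
    (fun i => Nat.dvd_factorial (hPY _ (hqmem i)).2.1 (hPY _ (hqmem i)).2.2.1)
    (fun d hd => ⟨fun x => by simp only [Nat.add_mod_right], by
      rw [mem_Icc] at hd
      exact Nat.dvd_factorial (by omega) hd.2⟩)
    (fun d hd => by
      rw [mem_Icc] at hd
      obtain ⟨T, hT⟩ : ∃ T : Finset (Fin (PW Q a b).card), T = univ.filter (fun i => q i ∣ d) :=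
        ⟨_, rfl⟩
      rw [← hT]
      have h5 : ∑ i ∈ T, Real.log (q i) ≤ Real.log d := by
        have h6 : ∑ i ∈ T, Real.log (q i) = ∑ p ∈ T.image q, Real.log p := by
          rw [sum_image (fun a _ b _ hab => hqmono.injective hab)]
        rw [h6]
        refine AB_lg (by omega) ?_
        intro p hp
        rw [mem_image] at hp
        obtain ⟨i, hi, rfl⟩ := hp
        rw [hT, mem_filter] at hi
        exact ⟨(hPY _ (hqmem i)).1, hi.2⟩
      have h7 : Real.log d ≤ Real.log Q :=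
        Real.log_le_log (by exact_mod_cast hd.1) (by exact_mod_cast hd.2)
      have h8 : ∀ i, (ν i : ℝ) * Real.log Q ≤ n * Real.log (q i) := by
        intro i
        rw [hν]
        have h9 : (⌊(n : ℝ) * Real.log (q i) / Real.log Q⌋₊ : ℝ) ≤
            (n : ℝ) * Real.log (q i) / Real.log Q :=
          Nat.floor_le (div_nonneg (mul_nonneg hnr.le (Real.log_natCast_nonneg _)) hlQ0.le)
        rwa [le_div_iff₀ hlQ0] at h9
      have h9 : (∑ i ∈ T, (ν i : ℝ)) * Real.log Q ≤ n * Real.log Q := by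
        rw [sum_mul]
        refine (sum_le_sum fun i _ => h8 i).trans ?_
        rw [← mul_sum]
        exact mul_le_mul_of_nonneg_left (h5.trans h7) hnr.le
      have h10 := le_of_mul_le_mul_right h9 hlQ0
      exact_mod_cast h10)
  obtain ⟨g, hg⟩ : ∃ g : Fin (PW Q a b).card → ℝ,
      g = fun i => ((SL.om H (q i)).card : ℝ) / q i := ⟨_, rfl⟩
  rw [← hg] at hf4
  have hqr : ∀ i, (0 : ℝ) < q i := fun i => by exact_mod_cast (hPY _ (hqmem i)).2.1
  have hg01 : ∀ i, 0 ≤ g i ∧ g i ≤ 1 := by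
    intro i
    rw [hg]
    refine ⟨div_nonneg (Nat.cast_nonneg _) (Nat.cast_nonneg _), ?_⟩
    show ((SL.om H (q i)).card : ℝ) / q i ≤ 1
    rw [div_le_one (hqr i)]
    exact_mod_cast (hOm i).2.2.le
  have hf4' : ∑ T, muT g T * f T = mn Q c := by
    have h5 := hf4 (fun _ => 1)
    simp only [mul_one] at h5
    rw [h5]
    exact hmean
  have hGs : |∑ i, g i - L| ≤ δ := by
    have h5 := hQ1 Q hQa H hH hHB
    rw [← hqsum (fun p => ((SL.om H p).card : ℝ) / p), ← hLd] at h5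
    rw [hg]
    exact h5
  have hTT : ∀ (x : ℕ) (i : Fin (PW Q a b).card),
      i ∈ TT q (fun i => SL.om H (q i)) x ↔ ∃ h ∈ H, q i ∣ x + h := by
    intro x i
    unfold TT
    rw [mem_filter]
    have h5 := AB_mem_om (H := H) (p := q i) (hPY _ (hqmem i)).2.1 x
    constructor
    · intro h; exact h5.1 h.2
    · intro h; exact ⟨mem_univ _, h5.2 h⟩
  rw [← hLd]
  refine ⟨?_, ?_⟩
  · intro hw
    have hfT : ∀ T, 0 ≤ f T := fun T => hf2 T 0 (fun x _ => hw x)
    have hmn0 : 0 ≤ mn Q c := by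
      rw [← hmean]
      exact div_nonneg (sum_nonneg fun x _ => hw x) hMr.le
    have hub := h1 (PW Q a b).card m n g ν f hm0 hn0 hg01 hνm hf1 hfT
    rw [hf4'] at hub
    have hI : ∀ i, ∑ T, muT g T * f T * (if i ∈ T then 1 else 0) = mnI Q c H (q i) := by
      intro i
      have h5 := hf4 (fun T => if i ∈ T then 1 else 0)
      rw [h5]
      unfold mnI
      congr 1
      apply sum_congr rfl
      intro x _
      congr 1
      by_cases hx : ∃ h ∈ H, q i ∣ x + h
      · rw [if_pos hx, if_pos ((hTT x i).2 hx)]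
      · rw [if_neg hx, if_neg (fun h' => hx ((hTT x i).1 h'))]
    have hL2 : ∑ p ∈ PW Q a b, |mnI Q c H p - ((SL.om H p).card : ℝ) / p * mn Q c| =
        ∑ i, |∑ T, muT g T * f T * (if i ∈ T then 1 else 0) - g i * mn Q c| := by
      rw [← hqsum (fun p => |mnI Q c H p - ((SL.om H p).card : ℝ) / p * mn Q c|)]
      apply sum_congr rfl
      intro i _
      rw [hI i, hg]
    rw [hL2]
    refine hub.trans ?_
    exact mul_le_mul_of_nonneg_right (WIN_real2 hL hδ1 hGs hnm0 hnm) hmn0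
  · intro r hr hw
    obtain ⟨hr1, hr2⟩ := WIN_real ha ha1 hL hδ1 hδ2 hGs hnm0 hnm hr
    rw [← hf4']
    refine h2 (PW Q a b).card m n g ν f r hm0 hg01 hνm hf1 hr1 hr2 ?_
    intro T hT
    apply hf3 T 0
    intro x hx
    apply hw x
    have hcard : hits (PW Q a b) H x = T.card := by
      unfold hits
      rw [← hx, ← card_image_of_injective (TT q (fun i => SL.om H (q i)) x) hqmono.injective]
      congr 1
      ext p
      rw [mem_filter, mem_image]
      constructor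
      · rintro ⟨hp, hh⟩
        rw [himg, mem_image] at hp
        obtain ⟨i, -, rfl⟩ := hp
        exact ⟨i, (hTT x i).2 hh, rfl⟩
      · rintro ⟨i, hi, rfl⟩
        exact ⟨hqmem i, (hTT x i).1 hi⟩
    rw [hcard]
    exact hT

end Pool.Agent.N422.WS
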