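import Pool.Agent.N422.WS.W
import Pool.Agent.N422.WS.KA
import Pool.Agent.N422.WS.KP
import Pool.Agent.N422.WS.GEN
import Pool.Agent.N422.WS.KM
import Pool.Agent.N422.WS.MOD
import Pool.Agent.N422.WS.AR
import Pool.Agent.N422.WS.MER
import Pool.Agent.N422.WS.WIN
import Pool.Agent.N422.WS.FIN
import Pool.Agent.N422.SL.FIN
import Pool.Agent.N422.NW.JEN

/-! Project WS: assembly. Author: helper422 (parts: helpers 700, 966, 645, 704, 492, 273, 702, 427, 853, 402). -/

set_option autoImplicit false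

namespace Pool.Agent.N422.WS

open Finset Pool.Agent.N422.NW Pool.Agent.N422.SL

theorem km : S_KM := t_KM (t_W t_AV) t_KA (t_KP (t_W t_AV)) (t_GEN2 t_JEN t_AV)

theorem fin_all : S_FIN :=
  t_FIN (t_WINA (t_MOD1 (t_W t_AV) km) (t_MOD2 (t_W t_AV) km) t_AR3 t_MER3) t_MER3

end Pool.Agent.N422.WS
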