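import Pool.Agent.N422.SL.Stm

/-! Project WS (helper422): limits of weighted sieves (almost prime k-tuples): definitions and statements of the
self-contained pieces. -/

set_option autoImplicit false

open Finset

namespace Pool.Agent.N422.WS

open Pool.Agent.N422.NW Pool.Agent.N422.SL

/-- the rate on the circle, real form -/
noncomputable def thr (t : ℝ) (v : ℕ) (z : ℂ) : ℝ := (Real.cosh (v * t) - (z ^ v).re) / (2 * (Real.cosh (v * t) + 1))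

/-- the rate, a Laurent polynomial -/
noncomputable def thc (t : ℝ) (v : ℕ) (z : ℂ) : ℂ :=
  ((Real.cosh (v * t) : ℂ) - (z ^ v + (z⁻¹) ^ v) / 2) / (2 * ((Real.cosh (v * t) : ℂ) + 1))

/-- `θ / (1 - θ)` -/
noncomputable def ome (t : ℝ) (v : ℕ) (z : ℂ) : ℝ := thr t v z / (1 - thr t v z)

/-- its mean value -/
noncomputable def Wv (t : ℝ) (v : ℕ) : ℝ := Real.circleAverage (fun w => ome t v (psi (Real.exp (-t)) w)) 0 1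

/-- the properties of the rate (WS/W) -/
def S_W : Prop := ∀ (v : ℕ) (t : ℝ), 0 < t →
  (∀ z : ℂ, ‖z‖ = 1 → thc t v z = (thr t v z : ℂ) ∧ 0 ≤ thr t v z ∧ thr t v z ≤ 1 / 2) ∧
  thc t v (Real.exp (-t) : ℝ) = 0 ∧ (∃ P : Polynomial ℂ, ∀ z : ℂ, z ≠ 0 → P.eval z = z ^ v * thc t v z) ∧
  0 ≤ Wv t v ∧ Wv t v ≤ 1 ∧ (1 ≤ v * t → 1 / 5 ≤ Wv t v) ∧
  ∀ l g : ℝ, |l| ≤ 1 / 2 → 0 ≤ g → g ≤ 1 →
    CircleIntegrable (fun w => Real.log (1 + l * ome t v (psi (Real.exp (-t)) w))) 0 1 ∧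
    (l - l ^ 2) * Wv t v ≤ Real.circleAverage (fun w => Real.log (1 + l * ome t v (psi (Real.exp (-t)) w))) 0 1 ∧
    CircleIntegrable (fun w => Real.log (1 + l * ome t v (psi (Real.exp (-t)) w) * g)) 0 1 ∧
    Real.circleAverage (fun w => Real.log (1 + l * ome t v (psi (Real.exp (-t)) w) * g)) 0 1 ≤ l * g * Wv t v

/-- the local kernel: `a`, `b` tell whether the place is in the first, second set -/
noncomputable def k1 {K : Type} [Field K] (th l g : K) (a b : Bool) : K :=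
  (1 - (if a then th else (1 - l) * th)) * (if a = b then 1 else 0) +
    (if a then th else (1 - l) * th) * (if b then g else 1 - g)

/-- the kernel -/
noncomputable def kk {K : Type} [Field K] {N : ℕ} (th l g : Fin N → K) (T T' : Finset (Fin N)) : K :=
  ∏ i, k1 (th i) (l i) (g i) (decide (i ∈ T)) (decide (i ∈ T'))

/-- the density -/
noncomputable def ph {N : ℕ} (om l g : Fin N → ℝ) (T : Finset (Fin N)) : ℝ :=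
  ∏ i, (if i ∈ T then 1 + l i * om i else 1) / (1 + l i * om i * g i)

/-- the adjoint of the kernel (WS/KA) -/
def S_KA : Prop := ∀ (N : ℕ) (g l th : Fin N → ℝ), (∀ i, 0 ≤ g i ∧ g i ≤ 1) → (∀ i, |l i| ≤ 1 / 2) →
  (∀ i, 0 ≤ th i ∧ th i ≤ 1 / 2) →
  (∀ T T', 0 ≤ kk th l g T T') ∧ (∀ T, 0 < ph (fun i => th i / (1 - th i)) l g T) ∧
  (∀ T', ∑ T, muT g T * ph (fun i => th i / (1 - th i)) l g T * kk th l g T T' = muT g T') ∧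
  (∀ T T' : Finset (Fin N), kk (fun _ => 0) l g T T' = if T' = T then 1 else 0)

/-- polynomials (WS/KP) -/
def S_KP : Prop := ∀ (N n : ℕ) (g l : Fin N → ℝ) (ν : Fin N → ℕ) (f : Finset (Fin N) → ℝ) (t : ℝ), 0 < t →
  LevT ν n f → ∀ T : Finset (Fin N), ∃ P : Polynomial ℂ, ∀ z : ℂ, z ≠ 0 →
    P.eval z = z ^ n * ∑ T', kk (fun i => thc t (ν i) z) (fun i => (l i : ℂ)) (fun i => (g i : ℂ)) T T' * (f T' : ℂ)

/-- the general inequality for real functions (WS/GEN) -/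
def S_GEN2 : Prop := ∀ (ι : Type) [Fintype ι] [DecidableEq ι] (n : ℕ) (μ f : ι → ℝ) (t : ℝ) (K : ℂ → ι → ι → ℂ)
  (φ : ℂ → ι → ℝ) (LB : ι → ℝ), (∀ x, 0 ≤ μ x) → 0 < t →
  (∀ x y, K (Real.exp (-t) : ℝ) x y = if y = x then 1 else 0) →
  (∀ x, ∃ P : Polynomial ℂ, ∀ z : ℂ, z ≠ 0 → P.eval z = z ^ n * ∑ y, K z x y * (f y : ℂ)) →
  (∀ z : ℂ, ‖z‖ = 1 → (∀ x, 0 < φ z x) ∧ ∀ y, ∑ x, μ x * φ z x * ‖K z x y‖ ≤ μ y) →
  (∀ x, CircleIntegrable (fun w => Real.log (φ (psi (Real.exp (-t)) w) x)) 0 1 ∧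
    LB x ≤ Real.circleAverage (fun w => Real.log (φ (psi (Real.exp (-t)) w) x)) 0 1) →
  0 < ∑ x, μ x * max (f x) 0 →
  ∑ x, μ x * max (f x) 0 * LB x ≤
    (n * t + Real.log ((∑ x, μ x * |f x|) / ∑ x, μ x * max (f x) 0)) * ∑ x, μ x * max (f x) 0

/-- the inequality in the model (WS/KM) -/
def S_KM : Prop := ∀ (N n : ℕ) (g l : Fin N → ℝ) (ν : Fin N → ℕ) (f : Finset (Fin N) → ℝ) (t : ℝ), 0 < t →
  (∀ i, 0 ≤ g i ∧ g i ≤ 1) → (∀ i, |l i| ≤ 1 / 2) → LevT ν n f → 0 < ∑ T, muT g T * max (f T) 0 →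
  ∑ T, muT g T * max (f T) 0 * (∑ i ∈ T, (l i - l i ^ 2) * Wv t (ν i) - ∑ i, l i * g i * Wv t (ν i)) ≤
    (n * t + Real.log ((∑ T, muT g T * |f T|) / ∑ T, muT g T * max (f T) 0)) * ∑ T, muT g T * max (f T) 0

/-- nonnegative functions in the model (WS/MOD) -/
def S_MOD1 : Prop := ∀ (N m n : ℕ) (g : Fin N → ℝ) (ν : Fin N → ℕ) (f : Finset (Fin N) → ℝ), 0 < m → 0 < n →
  (∀ i, 0 ≤ g i ∧ g i ≤ 1) → (∀ i, m ≤ ν i) → LevT ν n f → (∀ T, 0 ≤ f T) →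
  ∑ i, |∑ T, muT g T * f T * (if i ∈ T then 1 else 0) - g i * ∑ T, muT g T * f T| ≤
    (12 * Real.sqrt ((∑ i, g i) * (n / m)) + 24 * (n / m)) * ∑ T, muT g T * f T

/-- real functions in the model (WS/MOD) -/
def S_MOD2 : Prop := ∀ (N m n : ℕ) (g : Fin N → ℝ) (ν : Fin N → ℕ) (f : Finset (Fin N) → ℝ) (r : ℝ), 0 < m →
  (∀ i, 0 ≤ g i ∧ g i ≤ 1) → (∀ i, m ≤ ν i) → LevT ν n f → r ≤ ∑ i, g i →
  20 * (∑ i, g i) * (n / m + 1) < (∑ i, g i - r) ^ 2 → (∀ T : Finset (Fin N), r < (T.card : ℝ) → f T ≤ 0) →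
  ∑ T, muT g T * f T ≤ 0

/-- the set of the places hit -/
def TT {N : ℕ} (q : Fin N → ℕ) (Om : Fin N → Finset ℕ) (x : ℕ) : Finset (Fin N) :=
  univ.filter (fun i => x % q i ∈ Om i)

/-- from the model to periodic functions (WS/AR) -/
def S_AR3 : Prop := ∀ (N : ℕ) (q : Fin N → ℕ) (Om : Fin N → Finset ℕ) (ν : Fin N → ℕ) (n Q M : ℕ) (F : ℕ → ℕ → ℝ),
  Function.Injective q → (∀ i, (q i).Prime) → (∀ i, Om i ⊆ range (q i) ∧ 0 < (Om i).card ∧ (Om i).card < q i) →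
  0 < M → (∀ i, q i ∣ M) → (∀ d ∈ Icc 1 Q, Function.Periodic (F d) d ∧ d ∣ M) →
  (∀ d ∈ Icc 1 Q, ∑ i ∈ univ.filter (fun i => q i ∣ d), ν i ≤ n) →
  ∃ f : Finset (Fin N) → ℝ, LevT ν n f ∧
    (∀ (T : Finset (Fin N)) (b : ℝ), (∀ x : ℕ, TT q Om x = T → b ≤ ∑ d ∈ Icc 1 Q, F d x) → b ≤ f T) ∧
    (∀ (T : Finset (Fin N)) (b : ℝ), (∀ x : ℕ, TT q Om x = T → ∑ d ∈ Icc 1 Q, F d x ≤ b) → f T ≤ b) ∧
    ∀ G : Finset (Fin N) → ℝ, ∑ T, muT (fun i => ((Om i).card : ℝ) / q i) T * f T * G T =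
      (∑ x ∈ range M, (∑ d ∈ Icc 1 Q, F d x) * G (TT q Om x)) / M

/-- the primes in `(Q^a, Q^b]` -/
noncomputable def PW (Q : ℕ) (a b : ℝ) : Finset ℕ :=
  (Icc 1 Q).filter (fun p : ℕ => p.Prime ∧ (Q : ℝ) ^ a < p ∧ (p : ℝ) ≤ (Q : ℝ) ^ b)

/-- the sum over the primes (WS/MER) -/
def S_MER3 : Prop := ∀ (k : ℕ) (a b B δ : ℝ), 1 ≤ k → 0 < a → a < b → b ≤ 1 → 0 < δ → ∃ Q0 : ℕ, ∀ Q : ℕ, Q0 ≤ Q →
  ∀ H : Finset ℕ, H.card = k → (∀ h ∈ H, (h : ℝ) ≤ (Q : ℝ) ^ B) →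
  |∑ p ∈ PW Q a b, ((SL.om H p).card : ℝ) / p - k * Real.log (b / a)| ≤ δ

/-- the number of the primes of `P` which divide a number `n + h` -/
noncomputable def hits (P H : Finset ℕ) (n : ℕ) : ℕ := (P.filter (fun p => ∃ h ∈ H, p ∣ n + h)).card

/-- the mean of `w(n)` restricted to the `n` with `p ∣ n + h` for some `h ∈ H` -/
noncomputable def mnI (Q : ℕ) (c : ℕ → ℕ → ℝ) (H : Finset ℕ) (p : ℕ) : ℝ :=
  (∑ n ∈ range Q.factorial, wt Q c n * (if ∃ h ∈ H, p ∣ n + h then 1 else 0)) / (Q.factorial : ℝ)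

/-- the windows (WS/WIN) -/
def S_WINA : Prop := ∀ (k : ℕ) (a b B : ℝ), 1 ≤ k → 0 < a → a < b → b ≤ 1 → ∃ Q0 : ℕ, ∀ Q : ℕ, Q0 ≤ Q →
  ∀ H : Finset ℕ, H.card = k → (∀ h ∈ H, (h : ℝ) ≤ (Q : ℝ) ^ B) → ∀ c : ℕ → ℕ → ℝ,
  ((∀ n, 0 ≤ wt Q c n) → ∑ p ∈ PW Q a b, |mnI Q c H p - ((SL.om H p).card : ℝ) / p * mn Q c| ≤
    48 * (Real.sqrt (k * Real.log (b / a) / a) + 1 / a) * mn Q c) ∧
  ∀ r : ℝ, r ≤ k * Real.log (b / a) - 9 * Real.sqrt (k * Real.log (b / a) / a) →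
    (∀ n, r < (hits (PW Q a b) H n : ℝ) → wt Q c n ≤ 0) → mn Q c ≤ 0

/-- all scales and the corollaries (WS/FIN) -/
def S_FIN : Prop := ∃ C : ℝ, 0 < C ∧ ∀ (k : ℕ) (B : ℝ), 2 ≤ k →
  (∀ v : ℝ, 1 / k ≤ v → v < 1 → ∃ Q0 : ℕ, ∀ Q : ℕ, Q0 ≤ Q → ∀ H : Finset ℕ, H.card = k →
    (∀ h ∈ H, (h : ℝ) ≤ (Q : ℝ) ^ B) → ∀ c : ℕ → ℕ → ℝ, (∀ n, 0 ≤ wt Q c n) →
      ∑ p ∈ PW Q v 1, |mnI Q c H p - ((SL.om H p).card : ℝ) / p * mn Q c| ≤ C * Real.sqrt (k / v) * mn Q c) ∧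
  (∃ Q0 : ℕ, ∀ Q : ℕ, Q0 ≤ Q → ∀ H : Finset ℕ, H.card = k → (∀ h ∈ H, (h : ℝ) ≤ (Q : ℝ) ^ B) →
    ∀ c : ℕ → ℕ → ℝ, (∀ n, 0 ≤ wt Q c n) →
      (k * Real.log k - C * k) * mn Q c ≤
        (∑ n ∈ range Q.factorial, wt Q c n * (hits ((Icc 1 Q).filter Nat.Prime) H n : ℝ)) / (Q.factorial : ℝ)) ∧
  (∀ v : ℝ, 0 < v → v < 1 → ∃ Q0 : ℕ, ∀ Q : ℕ, Q0 ≤ Q → ∀ H : Finset ℕ, H.card = k →
    (∀ h ∈ H, (h : ℝ) ≤ (Q : ℝ) ^ B) → ∀ c : ℕ → ℕ → ℝ,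
      ∀ r : ℝ, r ≤ k * Real.log (1 / v) - C * Real.sqrt (k * Real.log (1 / v) / v) →
      (∀ n, r < (hits (PW Q v 1) H n : ℝ) → wt Q c n ≤ 0) → mn Q c ≤ 0) ∧
  ∃ Q0 : ℕ, ∀ Q : ℕ, Q0 ≤ Q → ∀ H : Finset ℕ, H.card = k → (∀ h ∈ H, (h : ℝ) ≤ (Q : ℝ) ^ B) →
    ∀ c : ℕ → ℕ → ℝ, ∀ r : ℝ, r ≤ k * Real.log k - k * Real.log (Real.log k) - C * k →
      (∀ n, r < (hits ((Icc 1 Q).filter Nat.Prime) H n : ℝ) → wt Q c n ≤ 0) → mn Q c ≤ 0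

end Pool.Agent.N422.WS
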