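import Pool.Agent.N422.WS.Stm

/-! Project WS (helper422), part W (helper700): the rate and its averages on the circle. -/

set_option autoImplicit false

open Finset

namespace Pool.Agent.N422.WS

open Pool.Agent.N422.NW Pool.Agent.N422.SL

theorem W_log {y : ℝ} (h : |y| ≤ 1 / 2) : y - y ^ 2 ≤ Real.log (1 + y) := by
  rw [abs_le] at h
  have h1 : 0 < 1 + y := by linarith
  rcases le_or_gt 0 y with h0 | h0
  · have h2 := Real.one_sub_inv_le_log_of_pos h1
    refine le_trans ?_ h2
    have h3 : 1 - (1 + y)⁻¹ = y / (1 + y) := by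
      field_simp
      ring
    rw [h3, le_div_iff₀ h1]
    have : 0 ≤ y ^ 3 := by positivity
    nlinarith
  · have h2 : 0 ≤ -Real.log (1 + y) := by
      have := Real.log_nonpos h1.le (by linarith)
      linarith
    have h3 := Real.self_le_sinh_iff.2 h2
    rw [Real.sinh_eq, neg_neg, Real.exp_log h1, Real.exp_neg, Real.exp_log h1] at h3
    have h4 : ((1 + y)⁻¹ - (1 + y)) / 2 ≤ -y + y ^ 2 := by
      rw [div_le_iff₀ (by norm_num), sub_le_iff_le_add, inv_le_iff_one_le_mul₀ h1]
      have : 0 ≤ y ^ 2 * (1 + 2 * y) := by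
        apply mul_nonneg (sq_nonneg y)
        linarith
      nlinarith
    linarith

theorem W_num {x : ℝ} (h : 1 ≤ x) : 1 / 5 ≤ Real.sinh x / (2 * (Real.cosh x + 1)) := by
  have hc := Real.cosh_pos x
  rw [le_div_iff₀ (by positivity), Real.sinh_eq, Real.cosh_eq]
  have h1 : Real.exp 1 ≤ Real.exp x := Real.exp_le_exp.2 h
  have h2 := Real.exp_one_gt_d9
  set e : ℝ := Real.exp x with he
  have he0 : 0 < e := Real.exp_pos x
  have h3 : Real.exp (-x) = e⁻¹ := Real.exp_neg x
  rw [h3]
  have h4 : 7 * e⁻¹ ≤ 3 * e - 4 := by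
    rw [← div_eq_mul_inv, div_le_iff₀ he0]
    nlinarith
  linarith

theorem W_circ {z : ℂ} (hz : ‖z‖ = 1) (t : ℝ) (v : ℕ) :
    thc t v z = (thr t v z : ℂ) ∧ 0 ≤ thr t v z ∧ thr t v z ≤ 1 / 2 := by
  have hre : |(z ^ v).re| ≤ 1 := by
    refine (Complex.abs_re_le_norm _).trans ?_
    rw [norm_pow, hz, one_pow]
  have hc := Real.one_le_cosh (v * t)
  rw [abs_le] at hre
  refine ⟨?_, ?_, ?_⟩
  · unfold thc thr
    have h1 : z ^ v + (z⁻¹) ^ v = ((2 * (z ^ v).re : ℝ) : ℂ) := by
      rw [Complex.inv_eq_conj hz, ← map_pow, Complex.add_conj]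
    rw [h1]
    push_cast
    ring
  · unfold thr
    apply div_nonneg
    · linarith
    · linarith
  · unfold thr
    rw [div_le_iff₀ (by linarith)]
    linarith

theorem W_zero (t : ℝ) (v : ℕ) : thc t v ((Real.exp (-t) : ℝ) : ℂ) = 0 := by
  unfold thc
  have h1 : (((Real.exp (-t) : ℝ) : ℂ) ^ v + (((Real.exp (-t) : ℝ) : ℂ)⁻¹) ^ v) / 2 =
      (Real.cosh (v * t) : ℂ) := by
    have h2 : Real.exp (-t) ^ v = Real.exp (-(v * t)) := by
      rw [← Real.exp_nat_mul]
      ring_nf
    have h3 : (Real.exp (-t))⁻¹ ^ v = Real.exp (v * t) := by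
      rw [← Real.exp_neg, neg_neg, ← Real.exp_nat_mul]
    rw [← Complex.ofReal_inv, ← Complex.ofReal_pow, ← Complex.ofReal_pow, h2, h3, Real.cosh_eq]
    push_cast
    ring
  rw [h1, sub_self, zero_div]

theorem W_poly (t : ℝ) (v : ℕ) :
    ∃ P : Polynomial ℂ, ∀ z : ℂ, z ≠ 0 → P.eval z = z ^ v * thc t v z := by
  refine ⟨Polynomial.C (1 / (2 * ((Real.cosh (v * t) : ℂ) + 1))) *
    (Polynomial.C (Real.cosh (v * t) : ℂ) * Polynomial.X ^ v -
      Polynomial.C (1 / 2) * (Polynomial.X ^ (2 * v) + 1)), fun z hz => ?_⟩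
  have hc : ((Real.cosh (v * t) : ℂ) + 1) ≠ 0 := by
    have h1 := Real.one_le_cosh (v * t)
    have h2 : (Real.cosh (v * t) + 1 : ℝ) ≠ 0 := by linarith
    exact_mod_cast h2
  simp only [Polynomial.eval_mul, Polynomial.eval_C, Polynomial.eval_sub, Polynomial.eval_pow,
    Polynomial.eval_X, Polynomial.eval_add, Polynomial.eval_one]
  unfold thc
  have h1 : z ^ v * (z⁻¹) ^ v = 1 := by
    rw [← mul_pow, mul_inv_cancel₀ hz, one_pow]
  have h2 : z ^ (2 * v) = z ^ v * z ^ v := by
    rw [two_mul, pow_add]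
  rw [h2]
  have h3 : z ^ v * (((Real.cosh (v * t) : ℂ) - (z ^ v + (z⁻¹) ^ v) / 2) /
      (2 * ((Real.cosh (v * t) : ℂ) + 1))) =
      1 / (2 * ((Real.cosh (v * t) : ℂ) + 1)) *
        ((Real.cosh (v * t) : ℂ) * z ^ v - 1 / 2 * (z ^ v * z ^ v + z ^ v * (z⁻¹) ^ v)) := by
    ring
  rw [h3, h1]

theorem W_int {f : ℂ → ℝ} (h : Continuous fun θ : ℝ => f (circleMap 0 1 θ)) :
    CircleIntegrable f 0 1 := h.intervalIntegrable _ _

theorem W_sph {w : ℂ} (h : w ∈ Metric.sphere (0 : ℂ) |(1 : ℝ)|) : ‖w‖ = 1 := by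
  rwa [abs_one, mem_sphere_zero_iff_norm] at h

theorem W_smul (a : ℝ) (f : ℂ → ℝ) :
    Real.circleAverage (fun w => a * f w) 0 1 = a * Real.circleAverage f 0 1 :=
  Real.circleAverage_fun_smul (a := a) (f := f)

theorem t_W (hA : S_AV) : S_W := by
  intro v t ht
  obtain ⟨hpsi, hcont, havg, -⟩ := hA v t ht
  set s : ℝ := Real.exp (-t) with hs
  set c : ℝ := Real.cosh (v * t) with hc
  have hc1 : 1 ≤ c := Real.one_le_cosh _
  set T : ℂ → ℝ := fun w => thr t v (psi s w) with hT
  set O : ℂ → ℝ := fun w => ome t v (psi s w) with hO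
  have hTb : ∀ w : ℂ, ‖w‖ = 1 → 0 ≤ T w ∧ T w ≤ 1 / 2 := fun w hw =>
    (W_circ (hpsi w hw) t v).2
  have hOT : ∀ w, O w = T w / (1 - T w) := fun w => rfl
  have hOb : ∀ w : ℂ, ‖w‖ = 1 → T w ≤ O w ∧ O w ≤ 1 := by
    intro w hw
    obtain ⟨h1, h2⟩ := hTb w hw
    have h3 : 0 < 1 - T w := by linarith
    rw [hOT]
    constructor
    · rw [le_div_iff₀ h3]
      nlinarith
    · rw [div_le_one h3]
      linarith
  have hO0 : ∀ w : ℂ, ‖w‖ = 1 → 0 ≤ O w := fun w hw => (hTb w hw).1.trans (hOb w hw).1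
  have hTcont : Continuous fun θ : ℝ => T (circleMap 0 1 θ) := by
    simp only [hT, thr]
    exact (continuous_const.sub (Complex.continuous_re.comp (hcont.pow v))).div_const _
  have hnorm : ∀ θ : ℝ, ‖circleMap 0 1 θ‖ = 1 := fun θ => by simp
  have hOcont : Continuous fun θ : ℝ => O (circleMap 0 1 θ) := by
    simp only [hOT]
    refine hTcont.div (continuous_const.sub hTcont) fun θ => ?_
    have := (hTb _ (hnorm θ)).2
    linarith
  have hTi : CircleIntegrable T 0 1 := W_int hTcont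
  have hOi : CircleIntegrable O 0 1 := W_int hOcont
  have hWv : Wv t v = Real.circleAverage O 0 1 := rfl
  have hTavg : Real.circleAverage T 0 1 = Real.sinh (v * t) / (2 * (c + 1)) := by
    have h1 : T = fun w => 1 / (2 * (c + 1)) * (c - ((psi s w) ^ v).re) := by
      funext w
      show (c - ((psi s w) ^ v).re) / (2 * (c + 1)) = _
      ring
    rw [h1, W_smul, havg]
    ring
  have hTO : Real.circleAverage T 0 1 ≤ Real.circleAverage O 0 1 :=
    Real.circleAverage_mono hTi hOi fun w hw => (hOb w (W_sph hw)).1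
  refine ⟨fun z hz => W_circ hz t v, W_zero t v, W_poly t v, ?_, ?_, ?_, ?_⟩
  · rw [hWv]
    have h1 := Real.circleAverage_mono (c := 0) (R := 1) (f₁ := fun _ : ℂ => (0 : ℝ))
      (W_int continuous_const) hOi fun w hw => hO0 w (W_sph hw)
    rwa [Real.circleAverage_const] at h1
  · rw [hWv]
    have h1 := Real.circleAverage_mono (c := 0) (R := 1) (f₂ := fun _ : ℂ => (1 : ℝ))
      hOi (W_int continuous_const) fun w hw => (hOb w (W_sph hw)).2
    rwa [Real.circleAverage_const] at h1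
  · intro h
    rw [hWv]
    refine le_trans ?_ hTO
    rw [hTavg]
    exact W_num h
  · intro l g hl hg0 hg1
    have hl' := abs_le.1 hl
    have hy : ∀ w : ℂ, ‖w‖ = 1 → |l * O w| ≤ 1 / 2 := by
      intro w hw
      rw [abs_mul, abs_of_nonneg (hO0 w hw)]
      have h1 := (hOb w hw).2
      have h2 := hO0 w hw
      have h3 := abs_nonneg l
      nlinarith
    have hyg : ∀ w : ℂ, ‖w‖ = 1 → |l * O w * g| ≤ 1 / 2 := by
      intro w hw
      rw [abs_mul, abs_of_nonneg hg0]
      have h1 := hy w hw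
      have h2 := abs_nonneg (l * O w)
      nlinarith
    have hc1' : Continuous fun θ : ℝ => Real.log (1 + l * O (circleMap 0 1 θ)) := by
      refine Continuous.log (continuous_const.add (continuous_const.mul hOcont)) fun θ => ?_
      have := (abs_le.1 (hy _ (hnorm θ))).1
      linarith
    have hc2' : Continuous fun θ : ℝ => Real.log (1 + l * O (circleMap 0 1 θ) * g) := by
      refine Continuous.log (continuous_const.add ((continuous_const.mul hOcont).mul
        continuous_const)) fun θ => ?_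
      have := (abs_le.1 (hyg _ (hnorm θ))).1
      linarith
    have hi1 : CircleIntegrable (fun w => Real.log (1 + l * O w)) 0 1 := W_int hc1'
    have hi2 : CircleIntegrable (fun w => Real.log (1 + l * O w * g)) 0 1 := W_int hc2'
    refine ⟨hi1, ?_, hi2, ?_⟩
    · rw [hWv, ← W_smul]
      refine Real.circleAverage_mono (W_int (continuous_const.mul hOcont)) hi1 fun w hw => ?_
      have hw' := W_sph hw
      have h1 := W_log (hy w hw')
      have h2 := hO0 w hw'
      have h3 := (hOb w hw').2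
      refine le_trans ?_ h1
      have h4 : (l * O w) ^ 2 ≤ l ^ 2 * O w := by
        rw [mul_pow]
        apply mul_le_mul_of_nonneg_left _ (sq_nonneg l)
        nlinarith
      nlinarith
    · rw [hWv, ← W_smul]
      refine Real.circleAverage_mono hi2 (W_int (continuous_const.mul hOcont)) fun w hw => ?_
      have hw' := W_sph hw
      have h1 := (abs_le.1 (hyg w hw')).1
      have h2 := Real.log_le_sub_one_of_pos (show 0 < 1 + l * O w * g by linarith)
      refine h2.trans (le_of_eq ?_)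
      ring

end Pool.Agent.N422.WS
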